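import Pool.Agent.Lib.MP_162bbe_gt.Ct.Defs

/-! The field of coefficients of a complex polynomial, and the spectra of short elements. -/

namespace Pool.Agent.Lib.MP_162bbe_gt.Ct

open Module NumberField Pool.Agent.Lib.MP_162bbe_gt.Ad

/-- The subfield of `ℂ` generated by the coefficients of `p`. -/
noncomputable def Cf (p : Polynomial ℂ) : IntermediateField ℚ ℂ :=
  IntermediateField.adjoin ℚ (Set.range p.coeff)

/-- The field of coefficients of `p i` lies in `σ i (k)`, with index at most the number of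
embeddings of `k` at the places of the `σ j`. -/
def Near {r : ℕ} {k : Type} [Field k] [NumberField k] (σ : Fin r → k →+* ℂ)
    (p : Fin r → Polynomial ℂ) : Prop :=
  ∀ i, (Cf (p i) : Set ℂ) ⊆ Set.range (σ i) ∧ finrank ℚ k ≤
    {s | ∃ j, InfinitePlace.mk s = InfinitePlace.mk (σ j)}.ncard * finrank ℚ (Cf (p i))

variable {r : ℕ} {g : Fin r → Type} [∀ i, LieRing (g i)] [∀ i, LieAlgebra ℂ (g i)]
  [∀ i, Module.Finite ℂ (g i)] {G : Type} [Group G]

/-- For every arithmetic structure on `Γ` over a number field, the characteristic polynomials of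
each element of infinite order with a short conjugate form a member of `𝓟` that is `Near`. -/
def SpecIn (h : ∀ i, Submodule ℝ (g i)) (π : ∀ i, G →* End ℂ (g i)) (R : ℝ)
    (𝓟 : Set (Fin r → Polynomial ℂ)) (Γ : Subgroup G) : Prop :=
  ∀ (k L : Type) [Field k] [NumberField k] [LieRing L] [LieAlgebra k L] (X : Arith h π Γ k L),
    ∀ b : G, ∀ γ ∈ Γ, ¬ IsOfFinOrder γ → b * γ * b⁻¹ ∈ Short π R →
      ∃ p ∈ 𝓟, (∀ i, p i = LinearMap.charpoly (π i γ)) ∧ Near X.σ p

end Pool.Agent.Lib.MP_162bbe_gt.Ct
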