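import Pool.Agent.Lib.MP_162bbe_gt.Ad.Defs

/-! Short elements, and arithmetic subgroups whose field avoids a given set of fields. -/

namespace Pool.Agent.Lib.MP_162bbe_gt.Ct

open Module NumberField Pool.Agent.Lib.MP_162bbe_gt.Ad

variable {r : ℕ} {g : Fin r → Type} [∀ i, LieRing (g i)] [∀ i, LieAlgebra ℂ (g i)]
  {G : Type} [Group G]

/-- The elements all of whose eigenvalues have modulus less than `R`. -/
def Short (π : ∀ i, G →* End ℂ (g i)) (R : ℝ) : Set G :=
  {u | ∀ i z, (π i u).HasEigenvalue z → ‖z‖ < R}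

/-- `Γ` is arithmetic over a number field `k`, and no member `E` of `𝓔` lies in one of the fields
`σ i (k)` with index at most the number of embeddings of `k` at the places of the `σ j`. -/
def ArithOff (h : ∀ i, Submodule ℝ (g i)) (π : ∀ i, G →* End ℂ (g i))
    (𝓔 : Set (IntermediateField ℚ ℂ)) (Γ : Subgroup G) : Prop :=
  ∃ (k L : Type) (_ : Field k) (_ : NumberField k) (_ : LieRing L) (_ : LieAlgebra k L)
    (X : Arith h π Γ k L), ∀ i, ∀ E ∈ 𝓔, (E : Set ℂ) ⊆ Set.range (X.σ i) →
      {s | ∃ j, InfinitePlace.mk s = InfinitePlace.mk (X.σ j)}.ncard * finrank ℚ E < finrank ℚ k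

end Pool.Agent.Lib.MP_162bbe_gt.Ct
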