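import Mathlib

set_option autoImplicit false

/-! The energy of the power sums of points of the unit disc, and Newton's identities. -/

namespace Pool.Agent.Lib.MP_162bbe_gt.Ct

open Finset Polynomial

lemma hs_congr {f g : ℕ → ℝ} {a : ℝ} (h : HasSum f a) (e : ∀ k, g k = f k) : HasSum g a :=
  (funext e : g = f) ▸ h

lemma kernel {x y : ℂ} {ρ : ℝ} (h0 : 0 ≤ ρ) (h1 : ρ < 1) (hx : ‖x‖ ≤ 1) (hy : ‖y‖ ≤ 1) :
    HasSum (fun k : ℕ => ρ ^ k / k * (x ^ k * (starRingEnd ℂ) (y ^ k)).re)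
      (-Real.log ‖1 - ρ * (x * (starRingEnd ℂ) y)‖) := by
  have hz : ‖(ρ : ℂ) * (x * (starRingEnd ℂ) y)‖ < 1 := by
    rw [norm_mul, norm_mul, Complex.norm_conj, Complex.norm_real, Real.norm_of_nonneg h0]
    have := mul_le_one₀ hx (norm_nonneg y) hy
    nlinarith
  have h := Complex.hasSum_re (Complex.hasSum_taylorSeries_neg_log hz)
  rw [Complex.neg_re, Complex.log_re] at h
  refine hs_congr h fun k => ?_
  rw [mul_pow, mul_pow, ← map_pow, mul_div_right_comm, ← Complex.ofReal_pow,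
    ← Complex.ofReal_natCast, ← Complex.ofReal_div, Complex.re_ofReal_mul]

lemma kernel_sq {x y : ℂ} {ρ : ℝ} :
    ‖1 - ρ * (x * (starRingEnd ℂ) y)‖ ^ 2 =
      ρ * ‖x - y‖ ^ 2 + (1 - ρ * ‖x‖ ^ 2) * (1 - ρ * ‖y‖ ^ 2) := by
  simp only [Complex.sq_norm, Complex.normSq_apply, Complex.sub_re, Complex.sub_im, Complex.mul_re,
    Complex.mul_im, Complex.one_re, Complex.one_im, Complex.ofReal_re, Complex.ofReal_im,
    Complex.conj_re, Complex.conj_im]
  ring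

lemma kernel_diag {x : ℂ} {ρ : ℝ} (h0 : 0 ≤ ρ) (h1 : ρ < 1) (hx : ‖x‖ ≤ 1) :
    -Real.log ‖1 - ρ * (x * (starRingEnd ℂ) x)‖ ≤ -Real.log (1 - ρ) := by
  refine neg_le_neg (Real.log_le_log (by linarith) (abs_le_of_sq_le_sq' ?_ (norm_nonneg _)).2)
  have h2 : ρ * ‖x‖ ^ 2 ≤ ρ := mul_le_of_le_one_right h0 (pow_le_one₀ (norm_nonneg x) hx)
  rw [kernel_sq, sub_self, norm_zero]
  nlinarith

lemma kernel_off {x y : ℂ} {ρ : ℝ} (h0 : 0 < ρ) (h1 : ρ < 1) (hx : ‖x‖ ≤ 1) (hy : ‖y‖ ≤ 1)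
    (h : x ≠ y) :
    -Real.log ‖1 - ρ * (x * (starRingEnd ℂ) y)‖ ≤ -Real.log ρ - Real.log ‖x - y‖ := by
  have h2 : ρ * ‖x‖ ^ 2 ≤ ρ := mul_le_of_le_one_right h0.le (pow_le_one₀ (norm_nonneg x) hx)
  have h3 : ρ * ‖y‖ ^ 2 ≤ ρ := mul_le_of_le_one_right h0.le (pow_le_one₀ (norm_nonneg y) hy)
  have h4 : 0 < ‖x - y‖ := norm_pos_iff.2 (sub_ne_zero.2 h)
  have h5 : ρ * ‖x - y‖ ≤ ‖1 - ρ * (x * (starRingEnd ℂ) y)‖ := by
    refine (abs_le_of_sq_le_sq' ?_ (norm_nonneg _)).2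
    have h6 : 0 ≤ (1 - ρ * ‖x‖ ^ 2) * (1 - ρ * ‖y‖ ^ 2) := mul_nonneg (by linarith) (by linarith)
    have h7 : 0 ≤ ρ * (1 - ρ) * ‖x - y‖ ^ 2 := by
      have : 0 ≤ 1 - ρ := by linarith
      positivity
    rw [kernel_sq]
    nlinarith
  have h8 := Real.log_le_log (mul_pos h0 h4) h5
  rw [Real.log_mul h0.ne' h4.ne'] at h8
  linarith

theorem energy (s : Finset ℂ) (hs : ∀ x ∈ s, ‖x‖ ≤ 1) {ρ : ℝ} (h0 : 0 < ρ) (h1 : ρ < 1)
    (K : Finset ℕ) :
    ∑ k ∈ K, ρ ^ k / k * ‖∑ x ∈ s, x ^ k‖ ^ 2 ≤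
      (s.card : ℝ) ^ 2 * -Real.log ρ - s.card * Real.log (1 - ρ) -
        ∑ x ∈ s, ∑ y ∈ s.erase x, Real.log ‖x - y‖ := by
  classical
  have h : HasSum (fun k : ℕ => ρ ^ k / k * ‖∑ x ∈ s, x ^ k‖ ^ 2)
      (∑ x ∈ s, ∑ y ∈ s, -Real.log ‖1 - ρ * (x * (starRingEnd ℂ) y)‖) := by
    have := hasSum_sum (s := s) fun x hx => hasSum_sum (s := s) fun y hy =>
      kernel h0.le h1 (hs x hx) (hs y hy)
    refine hs_congr this fun k => ?_
    have e : ‖∑ x ∈ s, x ^ k‖ ^ 2 =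
        ((∑ x ∈ s, x ^ k) * (starRingEnd ℂ) (∑ x ∈ s, x ^ k)).re := by
      rw [Complex.mul_conj, Complex.ofReal_re, Complex.sq_norm]
    rw [e, map_sum, sum_mul_sum, Complex.re_sum, mul_sum]
    refine sum_congr rfl fun x _ => ?_
    rw [Complex.re_sum, mul_sum]
  refine (sum_le_hasSum K (fun k _ => by positivity) h).trans ?_
  have hl : 0 ≤ -Real.log ρ := neg_nonneg.2 (Real.log_nonpos h0.le h1.le)
  have hrow : ∀ x ∈ s, ∑ y ∈ s, -Real.log ‖1 - ρ * (x * (starRingEnd ℂ) y)‖ ≤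
      (s.card * -Real.log ρ - Real.log (1 - ρ)) - ∑ y ∈ s.erase x, Real.log ‖x - y‖ := by
    intro x hx
    rw [← add_sum_erase s _ hx]
    have d1 := kernel_diag h0.le h1 (hs x hx)
    have d2 := sum_le_sum (s := s.erase x) fun y hy => kernel_off h0 h1 (hs x hx)
      (hs y (mem_of_mem_erase hy)) (ne_of_mem_erase hy).symm
    rw [sum_sub_distrib, sum_const, nsmul_eq_mul] at d2
    have d3 : ((s.erase x).card : ℝ) ≤ s.card := by exact_mod_cast card_erase_le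
    nlinarith
  refine (sum_le_sum hrow).trans ?_
  rw [sum_sub_distrib, sum_const, nsmul_eq_mul]
  nlinarith

lemma newton (s : Finset ℂ) (k : ℕ) (hk : 0 < k) :
    ∑ x ∈ s, x ^ k = (-1) ^ (k + 1) * k * s.val.esymm k -
      ∑ a ∈ antidiagonal k with a.1 ∈ Set.Ioo 0 k,
        (-1) ^ a.1 * s.val.esymm a.1 * ∑ x ∈ s, x ^ a.2 := by
  classical
  have h := congrArg (MvPolynomial.aeval (fun x : s => (x : ℂ)))
    (MvPolynomial.psum_eq_mul_esymm_sub_sum s ℂ k hk)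
  have e1 : ∀ j, MvPolynomial.aeval (fun x : s => (x : ℂ)) (MvPolynomial.esymm s ℂ j) =
      s.val.esymm j := by
    intro j
    rw [MvPolynomial.aeval_esymm_eq_multiset_esymm]
    congr 1
    exact Multiset.attach_map_val s.val
  have e2 : ∀ j, MvPolynomial.aeval (fun x : s => (x : ℂ)) (MvPolynomial.psum s ℂ j) =
      ∑ x ∈ s, x ^ j := by
    intro j
    simp only [MvPolynomial.psum, map_sum, map_pow, MvPolynomial.aeval_X]
    exact sum_coe_sort s (fun x => x ^ j)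
  simpa only [map_sub, map_mul, map_pow, map_neg, map_one, map_natCast, map_sum, e1, e2] using h

lemma psum_sub (s t : Finset ℂ) (k : ℕ) (hk : 0 < k)
    (he : ∀ j, 0 < j → j < k → s.val.esymm j = t.val.esymm j) :
    ∑ x ∈ s, x ^ k - ∑ x ∈ t, x ^ k = (-1) ^ (k + 1) * k * (s.val.esymm k - t.val.esymm k) := by
  induction k using Nat.strong_induction_on with
  | _ k ih =>
    rw [newton s k hk, newton t k hk]
    have : ∑ a ∈ antidiagonal k with a.1 ∈ Set.Ioo 0 k,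
        (-1) ^ a.1 * s.val.esymm a.1 * ∑ x ∈ s, x ^ a.2 =
      ∑ a ∈ antidiagonal k with a.1 ∈ Set.Ioo 0 k,
        (-1) ^ a.1 * t.val.esymm a.1 * ∑ x ∈ t, x ^ a.2 := by
      refine sum_congr rfl fun a ha => ?_
      obtain ⟨ha1, ha2, ha3⟩ := mem_filter.mp ha
      have ha1 := HasAntidiagonal.mem_antidiagonal.mp ha1
      have h2 : a.2 < k := by omega
      have h3 : 0 < a.2 := by omega
      have := ih a.2 h2 h3 fun j hj hj' => he j hj (by omega)
      rw [he a.2 h3 h2, sub_self, mul_zero, sub_eq_zero] at this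
      rw [he a.1 ha2 ha3, this]
    rw [this]
    ring

lemma eq_of_esymm (s t : Finset ℂ) (hc : s.card = t.card)
    (he : ∀ j, 0 < j → j ≤ s.card → s.val.esymm j = t.val.esymm j) : s = t := by
  have h : (s.val.map fun x => X - C x).prod = (t.val.map fun x => X - C x).prod := by
    rw [Multiset.prod_X_sub_X_eq_sum_esymm, Multiset.prod_X_sub_X_eq_sum_esymm]
    have : Multiset.card t.val = Multiset.card s.val := hc.symm
    rw [this]
    refine sum_congr rfl fun j hj => ?_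
    rcases Nat.eq_zero_or_pos j with rfl | h0
    · simp [Multiset.esymm]
    · rw [he j h0 (Nat.lt_succ_iff.1 (mem_range.1 hj))]
  have h2 := congrArg roots h
  rw [roots_multiset_prod_X_sub_C, roots_multiset_prod_X_sub_C] at h2
  exact Finset.val_injective h2

/-- One step prediction for exponential sums with few bounded nodes. -/
lemma predict {Q : ℝ} (hQ : 0 ≤ Q) (M : ℕ) : ∀ (N : Finset ℂ) (c : ℂ → ℂ) (a : ℕ) (η : ℝ),
    N.card ≤ M → (∀ x ∈ N, ‖x‖ ≤ Q) → 0 ≤ η →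
    (∀ j, a ≤ j → j < a + M → ‖∑ x ∈ N, c x * x ^ j‖ ≤ η) →
    ‖∑ x ∈ N, c x * x ^ (a + M)‖ ≤ ((1 + Q) ^ M - 1) * η := by
  classical
  induction M with
  | zero =>
    intro N c a η h _ _ _
    rw [card_eq_zero.1 (Nat.le_zero.1 h)]
    simp
  | succ M ih =>
    intro N c a η h hN hη hv
    rcases N.eq_empty_or_nonempty with rfl | ⟨τ, hτ⟩
    · have : (1 : ℝ) ≤ (1 + Q) ^ (M + 1) := one_le_pow₀ (by linarith)
      simpa using mul_nonneg (sub_nonneg.2 this) hη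
    have e : ∀ j, ∑ x ∈ N.erase τ, c x * (x - τ) * x ^ j =
        ∑ x ∈ N, c x * x ^ (j + 1) - τ * ∑ x ∈ N, c x * x ^ j := fun j => by
      rw [sum_erase N (by simp), mul_sum, ← sum_sub_distrib]
      exact sum_congr rfl fun x _ => by ring
    have hm : ∀ j, a ≤ j → j < a + (M + 1) → ‖τ * ∑ x ∈ N, c x * x ^ j‖ ≤ Q * η := fun j h1 h2 => by
      rw [norm_mul]
      exact mul_le_mul (hN τ hτ) (hv j h1 h2) (norm_nonneg _) hQ
    have h1 := ih (N.erase τ) (fun x => c x * (x - τ)) a ((1 + Q) * η)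
      (by rw [card_erase_of_mem hτ]; omega) (fun x hx => hN x (mem_of_mem_erase hx))
      (by positivity) fun j h1 h2 => by
        rw [e]
        have := norm_sub_le (∑ x ∈ N, c x * x ^ (j + 1)) (τ * ∑ x ∈ N, c x * x ^ j)
        have := hv (j + 1) (by omega) (by omega)
        have := hm j h1 (by omega)
        linarith
    rw [e] at h1
    have h2 := hm (a + M) (by omega) (by omega)
    have h3 := norm_le_norm_sub_add (∑ x ∈ N, c x * x ^ (a + M + 1))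
      (τ * ∑ x ∈ N, c x * x ^ (a + M))
    rw [← add_assoc, pow_succ (1 + Q)]
    linarith

end Pool.Agent.Lib.MP_162bbe_gt.Ct
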