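import Pool.Agent.Lib.MP_162bbe_gt.Ct.Sharp
import Pool.Agent.Lib.MP_162bbe_gt.Field

/-! The exceptional fields and their number. -/

namespace Pool.Agent.Lib.MP_162bbe_gt.Ct

open Polynomial Module IntermediateField Finset

/-- Algebraic integers of degree at most `n` with at most `m` conjugates outside the unit disc, all
of modulus at most `Q`. -/
def Zs (m : ℕ) (Q : ℝ) (n : ℕ) : Set ℂ :=
  {z | ∃ P : ℤ[X], P.Monic ∧ Irreducible P ∧ (P.aroots ℂ).Nodup ∧ P.natDegree ≤ n ∧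
    ((P.aroots ℂ).filter (fun z => 1 < ‖z‖)).card ≤ m ∧ (∀ z ∈ P.aroots ℂ, ‖z‖ ≤ Q) ∧
    z ∈ P.aroots ℂ}

/-- The fields generated by the coefficients of a polynomial with roots in `Zs`. -/
def Exc (M m c : ℕ) (Q : ℝ) : Set (IntermediateField ℚ ℂ) :=
  {E | ∃ f : Fin M → ℂ, E = adjoin ℚ (Set.range (∏ j, (X - C (f j))).coeff) ∧
    ∀ j, f j ∈ Zs m Q (c * finrank ℚ E)}

theorem sqrt_le {c d : ℕ} (hc : 1 ≤ c) (hd : 2 ≤ d) {L : ℝ} (hL : 0 ≤ L) :
    √((c * d : ℕ) * L) + Real.log (c * d : ℕ) ≤ 2 * c * (√(d * L) + Real.log d) := by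
  have h1 : (1 : ℝ) ≤ c := by exact_mod_cast hc
  have h2 : (2 : ℝ) ≤ d := by exact_mod_cast hd
  have h3 : 1 / 2 ≤ Real.log d :=
    le_trans (by linarith [Real.log_two_gt_d9]) (Real.log_le_log two_pos h2)
  have h4 : Real.log c ≤ c - 1 := Real.log_le_sub_one_of_pos (by linarith)
  have h5 : √((c * d : ℕ) * L) ≤ 2 * c * √(d * L) := by
    rw [Real.sqrt_le_iff]
    refine ⟨by positivity, ?_⟩
    rw [mul_pow, Real.sq_sqrt (by positivity), Nat.cast_mul, mul_assoc]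
    exact mul_le_mul_of_nonneg_right (by nlinarith) (by positivity)
  rw [Nat.cast_mul, Real.log_mul (by linarith) (by linarith)] at *
  nlinarith

theorem exc_count (M m c : ℕ) (hc : 1 ≤ c) : ∃ C : ℝ, ∀ (Q : ℝ) (d : ℕ), 1 ≤ Q → 2 ≤ d →
    ∃ T : Finset (IntermediateField ℚ ℂ),
      (#T : ℝ) ≤ Real.exp (C * Q ^ (2 * m + 1) * (√(d * Real.log Q) + Real.log d)) ∧
      ∀ E ∈ Exc M m c Q, finrank ℚ E ≤ d → E ∈ T := by
  classical
  obtain ⟨C, hC⟩ := sharp m
  refine ⟨M * (|C| + 1) * (2 * c), fun Q d hQ hd => ?_⟩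
  have hn : 2 ≤ c * d := hd.trans (Nat.le_mul_of_pos_left _ hc)
  obtain ⟨T, hT, h⟩ := hC Q (c * d) hQ hn
  obtain ⟨Z, hZ⟩ : ∃ Z : Finset ℂ,
      Z = (T.filter fun P => P.natDegree ≤ c * d).biUnion fun P => (P.aroots ℂ).toFinset := ⟨_, rfl⟩
  refine ⟨(Fintype.piFinset fun _ : Fin M => Z).image fun f =>
    adjoin ℚ (Set.range (∏ j, (X - Polynomial.C (f j))).coeff), ?_, ?_⟩
  · have h1 : #Z ≤ #T * (c * d) := hZ ▸ (card_biUnion_le_card_mul _ _ (c * d) fun P hP =>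
      (Multiset.toFinset_card_le _).trans ((card_roots' _).trans
        (natDegree_map_le.trans (mem_filter.1 hP).2))).trans
      (Nat.mul_le_mul_right _ (card_filter_le _ _))
    have h2 := sqrt_le hc hd (Real.log_nonneg hQ)
    set n := c * d
    have h3 : (2 : ℝ) ≤ n := by exact_mod_cast hn
    have h4 : 0 ≤ Real.log n := Real.log_nonneg (by linarith)
    have h5 : Real.log n ≤ √(n * Real.log Q) + Real.log n := le_add_of_nonneg_left (by positivity)
    have h6 : 1 ≤ Q ^ (2 * m + 1) := one_le_pow₀ hQ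
    generalize √(n * Real.log Q) + Real.log n = V at *
    have h8 := h4.trans h5
    have h7 : (#Z : ℝ) ≤ Real.exp ((|C| + 1) * Q ^ (2 * m + 1) * V) := by
      calc (#Z : ℝ) ≤ #T * n := by exact_mod_cast h1
        _ ≤ Real.exp (|C| * Q ^ (2 * m + 1) * V) * Real.exp (Q ^ (2 * m + 1) * V) := by
          refine mul_le_mul (hT.trans ?_) ?_ (by positivity) (by positivity)
          · gcongr; exact le_abs_self C
          · rw [← Real.log_le_iff_le_exp (by linarith)]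
            exact h5.trans (le_mul_of_one_le_left h8 h6)
        _ = _ := by rw [← Real.exp_add]; ring_nf
    refine (Nat.cast_le.2 card_image_le).trans ?_
    rw [Fintype.card_piFinset, prod_const, card_univ, Fintype.card_fin, Nat.cast_pow]
    calc (#Z : ℝ) ^ M ≤ Real.exp ((|C| + 1) * Q ^ (2 * m + 1) *
          (2 * c * (√(d * Real.log Q) + Real.log d))) ^ M := by
          refine pow_le_pow_left₀ (Nat.cast_nonneg _) (h7.trans ?_) M
          gcongr
      _ = _ := by rw [← Real.exp_nat_mul]; ring_nf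
  · rintro E ⟨f, hE, hf⟩ hd'
    refine mem_image.2 ⟨f, Fintype.mem_piFinset.2 fun j => ?_, hE.symm⟩
    obtain ⟨P, h1, h0, h2, h3, h4, h5, h6⟩ := hf j
    have h7 := h3.trans (Nat.mul_le_mul_left c hd')
    exact hZ ▸ mem_biUnion.2
      ⟨P, mem_filter.2 ⟨h P h1 h0 h2 h7 h4 h5, h7⟩, Multiset.mem_toFinset.2 h6⟩

theorem card_le {k : Type} [Field k] {χ : k[X]} (hχ : χ ≠ 0) (T : Finset (k →+* ℂ))
    {s : Multiset ℂ} (hs : s.Nodup) (h : ∀ w ∈ s, ∃ t ∈ T, eval₂ t w χ = 0) :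
    s.card ≤ #T * χ.natDegree := by
  classical
  rw [← Multiset.toFinset_card_of_nodup hs]
  refine (card_le_card (t := T.biUnion fun t => (χ.map t).roots.toFinset) fun w hw => ?_).trans
    (card_biUnion_le_card_mul _ _ _ fun t _ => (Multiset.toFinset_card_le _).trans
      ((card_roots' _).trans natDegree_map_le))
  obtain ⟨t, ht, h1⟩ := h w (Multiset.mem_toFinset.1 hw)
  exact mem_biUnion.2 ⟨t, ht, Multiset.mem_toFinset.2 ((mem_roots_map hχ).2 h1)⟩

theorem poly_exc {M t : ℕ} {Q : ℝ} (hQ : 1 ≤ Q) {k : Type} [Field k] [NumberField k] {χ : k[X]}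
    {S : Set (k →+* ℂ)} (hS : S.ncard ≤ t) (hm : χ.Monic) (hM : χ.natDegree = M)
    (hint : ∀ n, IsIntegral ℤ (χ.coeff n)) (hcirc : ∀ σ ∉ S, ∀ z, eval₂ σ z χ = 0 → ‖z‖ = 1)
    (hR : ∀ σ ∈ S, ∀ z, eval₂ σ z χ = 0 → ‖z‖ ≤ Q) {σ : k →+* ℂ} {z : ℂ} (hz : eval₂ σ z χ = 0)
    (hz1 : ‖z‖ ≠ 1) : ∃ E ∈ Exc M (t * M) (t * M + 1) Q, (E : Set ℂ) ⊆ Set.range σ ∧
      finrank ℚ k ≤ S.ncard * finrank ℚ E := by
  classical
  let k₀ : IntermediateField ℚ k := adjoin ℚ (Set.range χ.coeff)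
  have h1 : finrank k₀ k ≤ S.ncard := by
    let _ : Algebra k₀ ℂ := (σ.comp (algebraMap k₀ k)).toAlgebra
    rw [← AlgHom.card k₀ k ℂ, ← Nat.card_eq_fintype_card, ← Nat.card_coe_set_eq]
    refine Nat.card_le_card_of_injective (fun a : k →ₐ[k₀] ℂ => (⟨a, ?_⟩ : S))
      fun a b hab => AlgHom.coe_ringHom_injective (congrArg Subtype.val hab)
    by_contra h
    refine hz1 (hcirc _ h z ?_)
    rw [← hz, eval₂_eq_eval_map, eval₂_eq_eval_map]
    congr 1
    ext n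
    rw [coeff_map, coeff_map]
    exact a.commutes ⟨_, subset_adjoin _ _ ⟨n, rfl⟩⟩
  have h2 : finrank ℚ (k₀.map σ.toRatAlgHom) = finrank ℚ k₀ :=
    (k₀.equivMap σ.toRatAlgHom).toLinearEquiv.finrank_eq.symm
  have h3 : finrank ℚ k ≤ S.ncard * finrank ℚ (k₀.map σ.toRatAlgHom) := by
    rw [h2, ← finrank_mul_finrank ℚ k₀ k, mul_comm]
    exact Nat.mul_le_mul_right _ h1
  refine ⟨k₀.map σ.toRatAlgHom, ?_, by rintro _ ⟨x, -, rfl⟩; exact ⟨x, rfl⟩, h3⟩
  obtain ⟨l, hl⟩ := Quot.exists_rep (χ.map σ).roots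
  have h4 : l.length = M := by
    rw [← hM, ← hm.natDegree_map σ, (IsAlgClosed.splits _).natDegree_eq_card_roots, ← hl]; rfl
  subst h4
  refine ⟨l.get, ?_, fun j => ?_⟩
  · have h5 : ∏ j, (X - C (l.get j)) = χ.map σ := by
      rw [(IsAlgClosed.splits (χ.map σ)).eq_prod_roots_of_monic (hm.map σ), ← hl, ← List.prod_ofFn]
      change _ = (l.map _).prod
      conv_rhs => rw [← List.ofFn_get l, List.map_ofFn]
      rfl
    rw [h5, adjoin_map, ← Set.range_comp]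
    congr 2
    ext n
    exact (coeff_map _ _).symm
  · have h5 : eval₂ σ (l.get j) χ = 0 :=
      (mem_roots_map hm.ne_zero).1 (hl ▸ Multiset.mem_coe.2 (List.get_mem l j))
    obtain ⟨P, hP, hirr, h6, h7, -⟩ := exists_minpoly hm hint σ h5
    have h0 : P.map (algebraMap ℤ ℂ) ≠ 0 := (hP.map _).ne_zero
    have h8 : (P.aroots ℂ).Nodup := by
      have h9 := (hP.irreducible_iff_irreducible_map_fraction_map (K := ℚ)).1 hirr
      have h10 := nodup_roots (h9.separable.map (f := algebraMap ℚ ℂ))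
      rwa [Polynomial.map_map] at h10
    have h9 : ∀ w ∈ P.aroots ℂ, ∃ s : k →+* ℂ, eval₂ s w χ = 0 := fun w hw =>
      h7 w (mem_aroots'.1 hw).2
    refine ⟨P, hP, hirr, h8, ?_, ?_, fun w hw => ?_, mem_aroots'.2 ⟨h0, h6⟩⟩
    · have h10 := card_le hm.ne_zero univ h8 fun w hw => (h9 w hw).imp fun s h => ⟨mem_univ _, h⟩
      rw [card_univ, NumberField.Embeddings.card, hM, aroots_def,
        ← (IsAlgClosed.splits _).natDegree_eq_card_roots, hP.natDegree_map] at h10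
      have h11 := h3.trans (Nat.mul_le_mul_right _ hS)
      nlinarith [Nat.mul_le_mul_right l.length h11]
    · have h10 := card_le hm.ne_zero S.toFinite.toFinset (h8.filter fun z => 1 < ‖z‖) fun w hw => by
        obtain ⟨s, h⟩ := h9 w (Multiset.mem_filter.1 hw).1
        exact ⟨s, S.toFinite.mem_toFinset.2 (by_contra fun hs =>
          (Multiset.mem_filter.1 hw).2.ne' (hcirc s hs w h)), h⟩
      rw [← Set.ncard_eq_toFinset_card, hM] at h10
      exact h10.trans (Nat.mul_le_mul_right _ hS)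
    · obtain ⟨s, h⟩ := h9 w hw
      by_cases hs : s ∈ S
      · exact hR s hs w h
      · exact (hcirc s hs w h).trans_le hQ

end Pool.Agent.Lib.MP_162bbe_gt.Ct
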