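import Pool.Agent.Lib.MP_162bbe_gt.Ct.Tree

set_option autoImplicit false

/-! Counting squarefree monic integer polynomials with few roots outside the unit disc. -/

namespace Pool.Agent.Lib.MP_162bbe_gt.Ct

open Finset Polynomial

lemma int_disc (s : Finset ℂ) (F : ℤ[X]) (hF : F.map (algebraMap ℤ ℂ) = ∏ x ∈ s, (X - C x)) :
    (∀ k, ∃ z : ℤ, s.val.esymm k = z) ∧ 0 ≤ ∑ x ∈ s, ∑ y ∈ s.erase x, Real.log ‖x - y‖ := by
  classical
  refine ⟨fun k => ?_, ?_⟩
  · by_cases hk : k ≤ s.card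
    · have h := Multiset.prod_X_sub_C_coeff s.val (k := s.card - k) (Nat.sub_le _ _)
      have e : Multiset.card s.val - (s.card - k) = k := by
        have : Multiset.card s.val = s.card := rfl
        omega
      rw [e] at h
      have h2 : (s.val.map fun t => X - C t).prod = F.map (algebraMap ℤ ℂ) := hF.symm
      rw [h2, coeff_map] at h
      refine ⟨(-1) ^ k * F.coeff (s.card - k), ?_⟩
      push_cast
      have h3 : ((F.coeff (s.card - k) : ℤ) : ℂ) = (-1) ^ k * s.val.esymm k := h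
      rw [h3, ← mul_assoc, ← mul_pow]
      simp
    · refine ⟨0, ?_⟩
      rw [Multiset.esymm, Multiset.powersetCard_eq_empty _ (by simpa using hk)]
      simp
  · have hn : F.map (algebraMap ℤ ℂ) = Lagrange.nodal s id := hF
    have hm : (F.map (algebraMap ℤ ℂ)).Monic := by rw [hn]; exact Lagrange.nodal_monic
    have hr : (F.map (algebraMap ℤ ℂ)).roots = s.val := by
      rw [hF]; exact roots_prod_X_sub_C s
    have h := resultant_eq_prod_eval (F.map (algebraMap ℤ ℂ))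
      (derivative (F.map (algebraMap ℤ ℂ))) _ le_rfl (IsAlgClosed.splits _)
    rw [hm.leadingCoeff, one_pow, one_mul, hr] at h
    conv_lhs at h => rw [derivative_map, resultant_map_map]
    obtain ⟨z, hz⟩ : ∃ z : ℤ, (z : ℂ) = ∏ x ∈ s, ∏ y ∈ s.erase x, (x - y) := by
      refine ⟨_, h.trans ?_⟩
      refine Finset.prod_congr rfl fun x hx => ?_
      rw [hn]
      have := Lagrange.eval_nodal_derivative_eval_node_eq (v := id) hx
      simp only [id] at this
      rw [this, Lagrange.eval_nodal]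
      rfl
    have h0 : ∀ x ∈ s, ∀ y ∈ s.erase x, ‖x - y‖ ≠ 0 := fun x _ y hy =>
      norm_ne_zero_iff.2 (sub_ne_zero.2 (ne_of_mem_erase hy).symm)
    have h2 : ‖(z : ℂ)‖ = ∏ x ∈ s, ∏ y ∈ s.erase x, ‖x - y‖ := by
      rw [hz, norm_prod]
      exact prod_congr rfl fun x _ => norm_prod _ _
    have hz0 : z ≠ 0 := by
      intro h
      rw [h, Int.cast_zero, norm_zero, eq_comm] at h2
      exact prod_ne_zero_iff.2 (fun x hx => prod_ne_zero_iff.2 (h0 x hx)) h2
    have h1 : (1 : ℝ) ≤ ‖(z : ℂ)‖ := by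
      rw [Complex.norm_intCast, ← Int.cast_abs]; exact_mod_cast Int.one_le_abs hz0
    have h3 := Real.log_nonneg h1
    rw [h2, Real.log_prod fun x hx => prod_ne_zero_iff.2 (h0 x hx)] at h3
    exact h3.trans_eq (sum_congr rfl fun x hx => Real.log_prod (h0 x hx))

lemma eq_prod {P : ℤ[X]} (hm : P.Monic) (hn : (P.aroots ℂ).Nodup) :
    P.map (algebraMap ℤ ℂ) = ∏ x ∈ (P.aroots ℂ).toFinset, (X - C x) := by
  rw [Finset.prod, Multiset.toFinset_val, hn.dedup]
  exact (IsAlgClosed.splits _).eq_prod_roots_of_monic (hm.map _)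

lemma arith (m : ℕ) {Q n : ℝ} (hQ : 1 ≤ Q) (hn : 2 ≤ n) :
    4 * m * n * Q ^ (2 * m) + 4 * (1 + Q) ^ (4 * m) * ((2 * m + 1) *
      (2 * (n + n * Real.log (2 * n) + 2 * m * n * Real.log (2 * Q)))) ≤
      (8 * m + 8 * 2 ^ (4 * m) * (2 * m + 1) * (4 + 8 * m)) *
        ((Q ^ (2 * m + 1)) ^ 2 * (n * Real.log n)) := by
  have l2 : Real.log 2 ≤ Real.log n := Real.log_le_log two_pos hn
  have l1 : 1 ≤ 2 * Real.log n := by linarith [Real.log_two_gt_d9]
  have l3 : Real.log (2 * n) ≤ 2 * Real.log n := by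
    rw [Real.log_mul two_ne_zero (by linarith)]
    linarith
  have l4 : Real.log (2 * Q) ≤ 2 * Q := (Real.log_le_sub_one_of_pos (by linarith)).trans (by linarith)
  have l5 : 0 ≤ Real.log (2 * Q) := Real.log_nonneg (by linarith)
  have l6 : 0 ≤ Real.log (2 * n) := Real.log_nonneg (by linarith)
  generalize Real.log n = L at *
  have n0 : 0 ≤ n := by linarith
  have Q0 : 0 ≤ Q := by linarith
  have L0 : 0 ≤ L := by linarith
  have a1 : Q ^ (2 * m) ≤ (Q ^ (2 * m + 1)) ^ 2 := by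
    rw [← pow_mul]
    exact pow_le_pow_right₀ hQ (by omega)
  have a2 : (1 + Q) ^ (4 * m) * Q ≤ 2 ^ (4 * m) * (Q ^ (2 * m + 1)) ^ 2 := by
    calc _ ≤ (2 * Q) ^ (4 * m) * Q := by gcongr; linarith
      _ = 2 ^ (4 * m) * Q ^ (4 * m + 1) := by ring
      _ ≤ _ := by
        rw [← pow_mul]
        exact mul_le_mul_of_nonneg_left (pow_le_pow_right₀ hQ (by omega)) (by positivity)
  have a3 : n + n * Real.log (2 * n) + 2 * m * n * Real.log (2 * Q) ≤
      (4 + 8 * m) * (Q * (n * L)) := by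
    have b1 : n ≤ n * (2 * L) := le_mul_of_one_le_right n0 l1
    have b2 : n * Real.log (2 * n) ≤ n * (2 * L) := by gcongr
    have b3 : n * L ≤ Q * (n * L) := le_mul_of_one_le_left (by positivity) hQ
    have b4 : 2 * m * n * Real.log (2 * Q) ≤ 2 * m * (n * (2 * L)) * (2 * Q) := by gcongr
    linarith
  have a4 : 4 * m * n * Q ^ (2 * m) ≤ 4 * m * (n * (2 * L)) * (Q ^ (2 * m + 1)) ^ 2 := by
    gcongr
    exact le_mul_of_one_le_right n0 l1
  have a5 : 4 * (1 + Q) ^ (4 * m) * ((2 * m + 1) *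
      (2 * (n + n * Real.log (2 * n) + 2 * m * n * Real.log (2 * Q)))) ≤
      4 * (1 + Q) ^ (4 * m) * ((2 * m + 1) * (2 * ((4 + 8 * m) * (Q * (n * L))))) := by gcongr
  have a6 := mul_le_mul_of_nonneg_right a2
    (by positivity : (0 : ℝ) ≤ 8 * (2 * m + 1) * (4 + 8 * m) * (n * L))
  linarith

theorem count (m : ℕ) : ∃ C : ℝ, ∀ (Q : ℝ) (n : ℕ), 1 ≤ Q → 2 ≤ n → ∃ T : Finset ℤ[X],
    (T.card : ℝ) ≤ Real.exp (C * Q ^ (2 * m + 1) * √(n * Real.log n)) ∧
    ∀ P : ℤ[X], P.Monic → (P.aroots ℂ).Nodup → P.natDegree ≤ n →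
      ((P.aroots ℂ).filter (fun z => 1 < ‖z‖)).card ≤ m → (∀ z ∈ P.aroots ℂ, ‖z‖ ≤ Q) →
      P ∈ T := by
  classical
  obtain ⟨K, hK⟩ : ∃ K : ℝ, K = 8 * m + 8 * 2 ^ (4 * m) * (2 * m + 1) * (4 + 8 * m) := ⟨_, rfl⟩
  refine ⟨K + 42, fun Q n hQ hn => ?_⟩
  obtain ⟨S, hS⟩ : ∃ S : Set ℤ[X], S = {P | P.Monic ∧ (P.aroots ℂ).Nodup ∧ P.natDegree ≤ n ∧
      ((P.aroots ℂ).filter (fun z => 1 < ‖z‖)).card ≤ m ∧ ∀ z ∈ P.aroots ℂ, ‖z‖ ≤ Q} := ⟨_, rfl⟩
  have n2 : (2 : ℝ) ≤ n := by exact_mod_cast hn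
  have l0 : 0 < Real.log n := Real.log_pos (by linarith)
  have s0 : 0 < √(n * Real.log n) := by positivity
  have q1 : 1 ≤ Q ^ (2 * m + 1) := one_le_pow₀ hQ
  obtain ⟨W, hW⟩ : ∃ W, W = Q ^ (2 * m + 1) * √(n * Real.log n) := ⟨_, rfl⟩
  have W0 : 0 < W := by rw [hW]; positivity
  have key : ∀ F : Finset ℤ[X], (F : Set ℤ[X]) ⊆ S → (F.card : ℝ) ≤ Real.exp ((K + 42) * W) := by
    intro F hF
    rw [hS] at hF
    have hinj : Set.InjOn (fun P : ℤ[X] => (P.aroots ℂ).toFinset) F := fun P hP R hR h => by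
      refine map_injective (algebraMap ℤ ℂ) (algebraMap ℤ ℂ).injective_int ?_
      simp only at h ⊢
      rw [eq_prod (hF hP).1 (hF hP).2.1, eq_prod (hF hR).1 (hF hR).2.1, h]
    rw [← card_image_of_injOn hinj]
    obtain ⟨G, hG⟩ : ∃ G, G = F.image fun P : ℤ[X] => (P.aroots ℂ).toFinset := ⟨_, rfl⟩
    rw [← hG]
    have h1 : ∀ s ∈ G, Good m Q s ∧ s.card ≤ n := fun s hs => by
      obtain ⟨P, hP, rfl⟩ := mem_image.1 (hG ▸ hs)
      obtain ⟨a, b, c, d, e⟩ := hF hP
      have f := int_disc _ P (eq_prod a b)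
      refine ⟨⟨f.1, f.2, ?_, fun x hx => e x (Multiset.mem_toFinset.1 hx)⟩,
        (Multiset.toFinset_card_le _).trans ((card_roots' _).trans (natDegree_map_le.trans c))⟩
      rw [card_def, filter_val, Multiset.toFinset_val, b.dedup]
      simpa only [not_le] using d
    rw [card_eq_sum_card_fiberwise (f := Finset.card) (t := range (n + 1)) fun s hs =>
      mem_coe.2 (mem_range.2 (Nat.lt_succ_of_le (h1 s hs).2)), Nat.cast_sum]
    have h2 : ∀ d ∈ range (n + 1), ((G.filter fun s => s.card = d).card : ℝ) ≤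
        Real.exp ((K + 40) * W) := fun d hd => by
      refine (good_count (m := m) hQ (by omega) (Nat.lt_succ_iff.1 (mem_range.1 hd)) _
        (fun s hs => ⟨(h1 s (mem_filter.1 hs).1).1, (mem_filter.1 hs).2⟩)
        (inv_pos.2 W0)).trans (Real.exp_le_exp.2 ?_)
      have a := arith m hQ n2
      have b : (Q ^ (2 * m + 1)) ^ 2 * (n * Real.log n) = W * W := by
        rw [hW, mul_mul_mul_comm, Real.mul_self_sqrt (by positivity), sq]
      rw [← hK, b] at a
      have c := mul_le_mul_of_nonneg_left a (inv_pos.2 W0).le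
      rw [show W⁻¹ * (K * (W * W)) = K * W by field_simp] at c
      rw [div_inv_eq_mul]
      linarith
    refine (sum_le_card_nsmul _ _ _ h2).trans ?_
    rw [card_range, nsmul_eq_mul, show (K + 42) * W = 2 * W + (K + 40) * W by ring, Real.exp_add]
    refine mul_le_mul_of_nonneg_right ?_ (Real.exp_nonneg _)
    have a : Real.log n ≤ √(n * Real.log n) := by
      refine Real.le_sqrt_of_sq_le ?_
      rw [sq]
      exact mul_le_mul_of_nonneg_right
        ((Real.log_le_sub_one_of_pos (by linarith)).trans (by linarith)) l0.le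
    have b : √(n * Real.log n) ≤ W := hW ▸ le_mul_of_one_le_left s0.le q1
    calc _ ≤ (n : ℝ) * n := by push_cast; nlinarith
      _ = Real.exp (Real.log n + Real.log n) := by
        rw [Real.exp_add, Real.exp_log (by linarith)]
      _ ≤ _ := Real.exp_le_exp.2 (by linarith)
  have fin : S.Finite := by
    by_contra h
    obtain ⟨F, h1, h2⟩ := Set.Infinite.exists_subset_card_eq h (⌈Real.exp ((K + 42) * W)⌉₊ + 1)
    have a := key F h1
    have b := Nat.le_ceil (Real.exp ((K + 42) * W))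
    rw [h2] at a
    push_cast at a
    linarith
  refine ⟨fin.toFinset, ?_, fun P a b c d e => fin.mem_toFinset.2 (hS ▸ ⟨a, b, c, d, e⟩)⟩
  rw [mul_assoc, ← hW]
  exact key _ (by simp)

end Pool.Agent.Lib.MP_162bbe_gt.Ct
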