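import Pool.Agent.Lib.MP_162bbe_gt.Ct.Refl
import Pool.Agent.Lib.MP_162bbe_gt.Ct.Main

set_option autoImplicit false

/-! Coprime root sets with a common energetic head are few; heads of small energy are few. -/

namespace Pool.Agent.Lib.MP_162bbe_gt.Ct

open Finset Polynomial

/-- The power sums of the points in the unit disc. -/
noncomputable def ii (s : Finset ℂ) (k : ℕ) : ℂ := ∑ x ∈ s.filter fun x => ‖x‖ ≤ 1, x ^ k

/-- The root set of a squarefree monic integer polynomial. -/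
def Intg (s : Finset ℂ) : Prop := ∃ F : ℤ[X], F.map (algebraMap ℤ ℂ) = ∏ x ∈ s, (X - C x)

variable {m : ℕ} {Q : ℝ} {s t : Finset ℂ}

lemma close (hs : Good m Q s) (ht : Good m Q t) {K n : ℕ} (hK : K ≤ n)
    (he : ∀ j, 0 < j → j < K + 1 → s.val.esymm j = t.val.esymm j) {η : ℝ}
    (hη : ∀ i < 2 * m + 1, ‖ii s (K + 1 - i) - ii t (K + 1 - i)‖ ≤ η) {k : ℕ} (k0 : 0 < k)
    (hk : k ≤ K + 1) : ‖ii s k - ii t k‖ ≤ (1 + 2 * n) ^ (2 * m) * η := by
  classical
  have η0 : 0 ≤ η := (norm_nonneg _).trans (hη 0 (by omega))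
  by_cases hc : K + 1 - k < 2 * m + 1
  · have a := hη _ hc
    rw [show K + 1 - (K + 1 - k) = k by omega] at a
    have n0 : (0 : ℝ) ≤ n := Nat.cast_nonneg n
    exact a.trans (le_mul_of_one_le_left η0 (one_le_pow₀ (by linarith)))
  obtain ⟨A, hA⟩ : ∃ A, A = s.filter fun x => ¬ ‖x‖ ≤ 1 := ⟨_, rfl⟩
  obtain ⟨B, hB⟩ : ∃ B, B = t.filter fun x => ¬ ‖x‖ ≤ 1 := ⟨_, rfl⟩
  have h1 : ∀ x ∈ A ∪ B, 1 < ‖x‖ := fun x hx => by
    rw [hA, hB, mem_union, mem_filter, mem_filter] at hx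
    exact not_le.1 (hx.elim And.right And.right)
  have e : ∀ j < K, ‖∑ x ∈ A ∪ B, ((if x ∈ A then 1 else 0) - if x ∈ B then 1 else 0) * x ^ K *
      x⁻¹ ^ j‖ = ‖ii s (K - j) - ii t (K - j)‖ := by
    intro j hj
    have b := psum_sub s t (K - j) (by omega) fun i a b => he i a (by omega)
    rw [he (K - j) (by omega) (by omega), sub_self, mul_zero,
      ← sum_filter_add_sum_filter_not s fun x => ‖x‖ ≤ 1,
      ← sum_filter_add_sum_filter_not t fun x => ‖x‖ ≤ 1, ← hA, ← hB] at b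
    rw [← norm_neg, sum_congr rfl fun x hx => show _ = ((if x ∈ A then 1 else 0) -
      if x ∈ B then 1 else 0) * x ^ (K - j) by
        rw [pow_sub₀ x (norm_pos_iff.1 (one_pos.trans (h1 x hx))) hj.le, inv_pow, mul_assoc]]
    simp only [sub_mul, sum_sub_distrib, ite_mul, one_mul, zero_mul, sum_ite_mem,
      union_inter_cancel_left, union_inter_cancel_right]
    congr 1
    rw [ii, ii]
    linear_combination -b
  have h2 := grow n (fun x => x⁻¹) (2 * m) (A ∪ B)
    (fun x => ((if x ∈ A then 1 else 0) - if x ∈ B then 1 else 0) * x ^ K) η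
    ((card_union_le _ _).trans (by have := hs.few; have := ht.few; rw [hA, hB]; omega))
    (fun x hx => by rw [norm_inv]; exact inv_le_one_of_one_le₀ (h1 x hx).le) η0
    (fun j hj => by
      have a := hη (j + 1) (by omega)
      rwa [Nat.add_sub_add_right, ← e j (by omega)] at a) (K - k) (by omega)
  rwa [e _ (by omega), show K - (K - k) = k by omega] at h2

lemma Good.rf_sum (h : Good m Q s) (k : ℕ) : ‖∑ x ∈ s, rf x ^ k - ii s k‖ ≤ m := by
  classical
  rw [← sum_filter_add_sum_filter_not s fun x => ‖x‖ ≤ 1, sum_congr rfl fun x hx =>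
    show rf x ^ k = x ^ k by rw [rf, if_pos (mem_filter.1 hx).2], ii, add_sub_cancel_left]
  refine (norm_sum_le _ _).trans ((sum_le_card_nsmul _ _ 1 fun x _ => ?_).trans ?_)
  · rw [norm_pow]
    exact pow_le_one₀ (norm_nonneg _) (rf_norm x)
  · rw [nsmul_eq_mul, mul_one]
    exact_mod_cast h.few

lemma Good.mass (h : Good m Q s) (hQ : 1 ≤ Q) :
    ∑ x ∈ s, Real.log (max 1 ‖x‖) ≤ m * Real.log Q := by
  classical
  rw [← sum_filter_add_sum_filter_not s fun x => ‖x‖ ≤ 1, sum_eq_zero fun x hx => by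
    rw [max_eq_left (mem_filter.1 hx).2, Real.log_one], zero_add]
  refine (sum_le_card_nsmul _ _ (Real.log Q) fun x hx => Real.log_le_log (by positivity)
    (max_le hQ (h.bd x (mem_filter.1 hx).1))).trans ?_
  rw [nsmul_eq_mul]
  exact mul_le_mul_of_nonneg_right (by exact_mod_cast h.few) (Real.log_nonneg hQ)

lemma harm (n : ℕ) : ∑ k ∈ range (n + 1), (1 : ℝ) / k ≤ 1 + Real.log n := by
  have h := harmonic_le_one_add_log n
  rw [harmonic] at h
  rw [sum_range_succ']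
  simpa using h

lemma fiber (hQ : 1 ≤ Q) {n K : ℕ} (hn : 2 ≤ n) (hK : K ≤ n) (G : Finset (Finset ℂ))
    (hd : (G : Set (Finset ℂ)).PairwiseDisjoint id)
    (hG : ∀ s ∈ G, Good m Q s ∧ Intg s ∧ s.card ≤ n)
    (hc : ∀ s ∈ G, ∀ k, 0 < k → k ≤ K → ‖ii s k - ii t k‖ ≤ 1)
    (hY : 9 + 8 * m * n * Real.log Q + 2 * (m + 1) ^ 2 * (1 + Real.log n) ≤
      ∑ k ∈ range (K + 1), yy t k ^ 2 / k) : (G.card : ℝ) ≤ 8 * n * Real.log n := by
  classical
  have n2 : (2 : ℝ) ≤ n := by exact_mod_cast hn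
  have l0 : 0 ≤ Real.log n := Real.log_nonneg (by linarith)
  have L0 : 0 ≤ Real.log Q := Real.log_nonneg hQ
  have hI : Intg (G.biUnion id) := by
    choose! P hP using fun s hs => (hG s hs).2.1
    refine ⟨∏ s ∈ G, P s, ?_⟩
    rw [Polynomial.map_prod, prod_biUnion hd]
    exact prod_congr rfl hP
  obtain ⟨P, hP⟩ := hI
  obtain ⟨u, hu⟩ : ∃ u : ℝ, u = 1 / n ^ 2 := ⟨_, rfl⟩
  have u0 : 0 < u := by rw [hu]; positivity
  have un : u * n ^ 2 = 1 := by rw [hu]; field_simp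
  have u2 : u * n ≤ 1 / 2 := by nlinarith
  have u1 : u ≤ 1 / 2 := by nlinarith
  have h1 := energy_rf _ (int_disc _ P hP).2 (ρ := 1 - u) (by linarith) (by linarith)
    (range (K + 1))
  simp only [sum_biUnion hd, id] at h1
  have h2 : ((G.biUnion id).card : ℝ) ≤ G.card * n := by
    exact_mod_cast card_biUnion_le_card_mul G id n fun s hs => (hG s hs).2.2
  have h3 := sum_le_card_nsmul G _ _ fun s hs => (hG s hs).1.mass hQ
  have h4 : -Real.log (1 - u) ≤ 2 * u := by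
    have a := Real.one_sub_inv_le_log_of_pos (x := 1 - u) (by linarith)
    have b : (1 - u)⁻¹ ≤ 1 + 2 * u := by
      rw [inv_le_iff_one_le_mul₀ (by linarith)]
      nlinarith
    linarith
  have h5 : Real.log (1 - (1 - u)) = -(2 * Real.log n) := by
    rw [sub_sub_cancel, hu, one_div, Real.log_inv, Real.log_pow, Nat.cast_ofNat]
  rw [h5] at h1
  rw [nsmul_eq_mul] at h3
  have h6 : ∀ k ∈ range (K + 1), (G.card : ℝ) ^ 2 * (yy t k ^ 2 / k) ≤
      4 * ((1 - u) ^ k / k * ‖∑ s ∈ G, ∑ x ∈ s, rf x ^ k‖ ^ 2) +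
        2 * (G.card * (m + 1)) ^ 2 * (1 / k) := fun k hk => by
    rcases Nat.eq_zero_or_pos k with rfl | k0
    · simp
    have k1 : k ≤ K := Nat.lt_succ_iff.1 (mem_range.1 hk)
    have k2 : (k : ℝ) ≤ n := by exact_mod_cast k1.trans hK
    have k3 : (0 : ℝ) < k := by exact_mod_cast k0
    have a : ‖∑ s ∈ G, ∑ x ∈ s, rf x ^ k - G.card * ii t k‖ ≤ G.card * (m + 1) := by
      rw [← nsmul_eq_mul, ← nsmul_eq_mul, ← sum_const, ← sum_sub_distrib]
      refine (norm_sum_le _ _).trans (sum_le_card_nsmul _ _ _ fun s hs => ?_)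
      have := norm_sub_le_norm_sub_add_norm_sub (∑ x ∈ s, rf x ^ k) (ii s k) (ii t k)
      have := (hG s hs).1.rf_sum k
      have := hc s hs k k0 k1
      linarith
    have b := norm_le_norm_add_norm_sub (∑ s ∈ G, ∑ x ∈ s, rf x ^ k) (G.card * ii t k)
    rw [norm_mul, Complex.norm_natCast] at b
    have c := one_add_mul_le_pow (a := -u) (by linarith) k
    rw [← sub_eq_add_neg] at c
    have d : 1 ≤ 2 * (1 - u) ^ k := by nlinarith
    have e := pow_le_pow_left₀ (by positivity) (b.trans (add_le_add_right a _)) 2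
    change (_ * yy t k) ^ 2 ≤ _ at e
    generalize ‖∑ s ∈ G, ∑ x ∈ s, rf x ^ k‖ = S at e
    have f := le_mul_of_one_le_left (sq_nonneg S) d
    calc _ = (G.card * yy t k) ^ 2 / k := by ring
      _ ≤ (4 * ((1 - u) ^ k * S ^ 2) + 2 * (G.card * (m + 1)) ^ 2) / k := by
        gcongr
        nlinarith [sq_nonneg (S - G.card * (m + 1))]
      _ = _ := by ring
  have h7 := sum_le_sum h6
  rw [← mul_sum, sum_add_distrib, ← mul_sum, ← mul_sum] at h7
  have h8 : ∑ k ∈ range (K + 1), (1 : ℝ) / k ≤ 1 + Real.log n :=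
    (sum_le_sum_of_subset_of_nonneg (range_subset_range.2 (by omega))
      fun j _ _ => by positivity).trans (harm n)
  have μ0 : 0 ≤ ∑ s ∈ G, ∑ x ∈ s, Real.log (max 1 ‖x‖) :=
    sum_nonneg fun s _ => sum_nonneg fun x _ => Real.log_nonneg (le_max_left _ _)
  have N0 : (0 : ℝ) ≤ G.card := Nat.cast_nonneg _
  have c0 : (0 : ℝ) ≤ (G.biUnion id).card := Nat.cast_nonneg _
  generalize (G.card : ℝ) = N at *
  generalize ((G.biUnion id).card : ℝ) = c at *
  have a1 : c ^ 2 * -Real.log (1 - u) ≤ (N * n) ^ 2 * (2 * u) :=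
    mul_le_mul (pow_le_pow_left₀ c0 h2 2) h4
      (neg_nonneg.2 (Real.log_nonpos (by linarith) (by linarith))) (by positivity)
  have a2 : (N * n) ^ 2 * (2 * u) = 2 * N ^ 2 := by
    rw [show (N * n) ^ 2 * (2 * u) = 2 * N ^ 2 * (u * n ^ 2) by ring, un, mul_one]
  have a3 := mul_le_mul_of_nonneg_right h2 l0
  have a4 := mul_le_mul h2 h3 μ0 (by positivity)
  have a5 := mul_le_mul_of_nonneg_left h8 (by positivity : 0 ≤ 2 * (N * (m + 1)) ^ 2)
  have a6 := mul_le_mul_of_nonneg_left hY (sq_nonneg N)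
  have a7 : N * N ≤ N * (8 * n * Real.log n) := by linarith
  rcases N0.eq_or_lt with rfl | N1
  · positivity
  · exact le_of_mul_le_mul_left a7 N1

end Pool.Agent.Lib.MP_162bbe_gt.Ct
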