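import Pool.Agent.Lib.MP_162bbe_gt.Ct.Energy

set_option autoImplicit false

/-! The energy of the power sums of reflected points, slow growth, and a packing principle. -/

namespace Pool.Agent.Lib.MP_162bbe_gt.Ct

open Finset

/-- Reflection of the points outside the unit disc. -/
noncomputable def rf (a : ℂ) : ℂ := if ‖a‖ ≤ 1 then a else ((starRingEnd ℂ) a)⁻¹

lemma rf_norm (a : ℂ) : ‖rf a‖ ≤ 1 := by
  unfold rf
  split_ifs with h
  · exact h
  · rw [norm_inv, Complex.norm_conj]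
    exact inv_le_one_of_one_le₀ (not_le.1 h).le

lemma sub_le_kernel {x y : ℂ} (hx : ‖x‖ ≤ 1) (hy : ‖y‖ ≤ 1) :
    ‖x - y‖ ≤ ‖1 - x * (starRingEnd ℂ) y‖ := by
  refine (abs_le_of_sq_le_sq' ?_ (norm_nonneg _)).2
  have h := kernel_sq (x := x) (y := y) (ρ := 1)
  rw [Complex.ofReal_one, one_mul, one_mul, one_mul, one_mul] at h
  rw [h]
  have := mul_nonneg (sub_nonneg.2 (pow_le_one₀ (n := 2) (norm_nonneg x) hx))
    (sub_nonneg.2 (pow_le_one₀ (n := 2) (norm_nonneg y) hy))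
  linarith

lemma rf_sub (a b : ℂ) :
    ‖a - b‖ ≤ max 1 ‖a‖ * max 1 ‖b‖ * ‖1 - rf a * (starRingEnd ℂ) (rf b)‖ := by
  have h0 : ∀ c : ℂ, ¬ ‖c‖ ≤ 1 → c ≠ 0 := fun c h e => h (by simp [e])
  by_cases ha : ‖a‖ ≤ 1 <;> by_cases hb : ‖b‖ ≤ 1
  · rw [max_eq_left ha, max_eq_left hb, one_mul, one_mul, rf, rf, if_pos ha, if_pos hb]
    exact sub_le_kernel ha hb
  · rw [max_eq_left ha, max_eq_right (not_le.1 hb).le, one_mul, rf, rf, if_pos ha, if_neg hb,
      map_inv₀, Complex.conj_conj, ← norm_mul, norm_sub_rev]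
    have := h0 b hb
    exact le_of_eq (by congr 1; field_simp)
  · rw [max_eq_left hb, max_eq_right (not_le.1 ha).le, mul_one, rf, rf, if_pos hb, if_neg ha,
      ← Complex.norm_conj a, ← norm_mul, ← Complex.norm_conj (a - b), map_sub]
    have := (map_ne_zero (starRingEnd ℂ)).2 (h0 a ha)
    exact le_of_eq (by congr 1; field_simp)
  · refine le_trans (le_of_eq ?_) (mul_le_mul_of_nonneg_left
      (sub_le_kernel (rf_norm a) (rf_norm b)) (by positivity))
    rw [max_eq_right (not_le.1 ha).le, max_eq_right (not_le.1 hb).le, rf, rf, if_neg ha, if_neg hb,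
      ← map_inv₀, ← map_inv₀, ← map_sub, Complex.norm_conj, ← norm_mul, ← norm_mul, norm_sub_rev]
    have := h0 a ha
    have := h0 b hb
    congr 1
    field_simp

lemma rf_off {a b : ℂ} {ρ : ℝ} (h0 : 0 < ρ) (h1 : ρ < 1) (h : a ≠ b) :
    -Real.log ‖1 - ρ * (rf a * (starRingEnd ℂ) (rf b))‖ ≤ -Real.log ρ - Real.log ‖a - b‖ +
      Real.log (max 1 ‖a‖) + Real.log (max 1 ‖b‖) := by
  have h2 : 0 < ‖a - b‖ := norm_pos_iff.2 (sub_ne_zero.2 h)
  have h3 := rf_sub a b
  have h4 : ‖1 - rf a * (starRingEnd ℂ) (rf b)‖ ≠ 0 := fun e => by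
    rw [e, mul_zero] at h3
    linarith
  have h5 := kernel_off (x := rf a * (starRingEnd ℂ) (rf b)) (y := 1) h0 h1 (by
    rw [norm_mul, Complex.norm_conj]
    exact mul_le_one₀ (rf_norm a) (norm_nonneg _) (rf_norm b)) norm_one.le
    (sub_ne_zero.1 (norm_ne_zero_iff.1 h4)).symm
  rw [map_one, mul_one, norm_sub_rev (rf a * _)] at h5
  have h6 := Real.log_le_log h2 h3
  rw [Real.log_mul (by positivity) h4, Real.log_mul (by positivity) (by positivity)] at h6
  linarith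

theorem energy_rf (s : Finset ℂ) (hs : 0 ≤ ∑ x ∈ s, ∑ y ∈ s.erase x, Real.log ‖x - y‖) {ρ : ℝ}
    (h0 : 0 < ρ) (h1 : ρ < 1) (K : Finset ℕ) :
    ∑ k ∈ K, ρ ^ k / k * ‖∑ x ∈ s, rf x ^ k‖ ^ 2 ≤
      (s.card : ℝ) ^ 2 * -Real.log ρ - s.card * Real.log (1 - ρ) +
        2 * s.card * ∑ x ∈ s, Real.log (max 1 ‖x‖) := by
  classical
  have h : HasSum (fun k : ℕ => ρ ^ k / k * ‖∑ x ∈ s, rf x ^ k‖ ^ 2)
      (∑ x ∈ s, ∑ y ∈ s, -Real.log ‖1 - ρ * (rf x * (starRingEnd ℂ) (rf y))‖) := by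
    have := hasSum_sum (s := s) fun x _ => hasSum_sum (s := s) fun y _ =>
      kernel h0.le h1 (rf_norm x) (rf_norm y)
    refine hs_congr this fun k => ?_
    have e : ‖∑ x ∈ s, rf x ^ k‖ ^ 2 =
        ((∑ x ∈ s, rf x ^ k) * (starRingEnd ℂ) (∑ x ∈ s, rf x ^ k)).re := by
      rw [Complex.mul_conj, Complex.ofReal_re, Complex.sq_norm]
    rw [e, map_sum, sum_mul_sum, Complex.re_sum, mul_sum]
    refine sum_congr rfl fun x _ => ?_
    rw [Complex.re_sum, mul_sum]
  refine (sum_le_hasSum K (fun k _ => by positivity) h).trans ?_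
  have hl : 0 ≤ -Real.log ρ := neg_nonneg.2 (Real.log_nonpos h0.le h1.le)
  have hp : ∀ x : ℂ, 0 ≤ Real.log (max 1 ‖x‖) := fun x => Real.log_nonneg (le_max_left _ _)
  have hrow : ∀ x ∈ s, ∑ y ∈ s, -Real.log ‖1 - ρ * (rf x * (starRingEnd ℂ) (rf y))‖ ≤
      (s.card * -Real.log ρ - Real.log (1 - ρ) + ∑ y ∈ s, Real.log (max 1 ‖y‖)) +
        s.card * Real.log (max 1 ‖x‖) - ∑ y ∈ s.erase x, Real.log ‖x - y‖ := by
    intro x hx
    rw [← add_sum_erase s _ hx]
    have d1 := kernel_diag h0.le h1 (rf_norm x)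
    have d2 := sum_le_sum (s := s.erase x) fun y hy => rf_off h0 h1 (ne_of_mem_erase hy).symm
    rw [sum_add_distrib, sum_add_distrib, sum_sub_distrib, sum_const, sum_const, nsmul_eq_mul,
      nsmul_eq_mul] at d2
    have d3 : ((s.erase x).card : ℝ) ≤ s.card := by exact_mod_cast card_erase_le
    have d4 := sum_le_sum_of_subset_of_nonneg (erase_subset x s) fun y _ _ => hp y
    have d5 := mul_le_mul_of_nonneg_right d3 hl
    have d6 := mul_le_mul_of_nonneg_right d3 (hp x)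
    linarith
  refine (sum_le_sum hrow).trans ?_
  rw [sum_sub_distrib, sum_add_distrib, sum_const, nsmul_eq_mul, ← mul_sum]
  linarith

/-- Exponential sums with few nodes in the unit disc grow at most polynomially. -/
lemma grow (n : ℕ) (z : ℂ → ℂ) (M : ℕ) : ∀ (N : Finset ℂ) (c : ℂ → ℂ) (η : ℝ),
    N.card ≤ M → (∀ x ∈ N, ‖z x‖ ≤ 1) → 0 ≤ η → (∀ j < M, ‖∑ x ∈ N, c x * z x ^ j‖ ≤ η) →
    ∀ j ≤ n, ‖∑ x ∈ N, c x * z x ^ j‖ ≤ (1 + 2 * n) ^ M * η := by
  classical
  induction M with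
  | zero =>
    intro N c η h _ hη _ j _
    rw [card_eq_zero.1 (Nat.le_zero.1 h)]
    simpa using hη
  | succ M ih =>
    intro N c η h hN hη hv
    rcases N.eq_empty_or_nonempty with rfl | ⟨τ, hτ⟩
    · intro j _
      rw [sum_empty, norm_zero]
      positivity
    have e : ∀ j, ∑ x ∈ N.erase τ, c x * (z x - z τ) * z x ^ j =
        ∑ x ∈ N, c x * z x ^ (j + 1) - z τ * ∑ x ∈ N, c x * z x ^ j := fun j => by
      rw [sum_erase N (by simp), mul_sum, ← sum_sub_distrib]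
      exact sum_congr rfl fun x _ => by ring
    have hm : ∀ j, ‖z τ * ∑ x ∈ N, c x * z x ^ j‖ ≤ ‖∑ x ∈ N, c x * z x ^ j‖ := fun j => by
      rw [norm_mul]
      exact mul_le_of_le_one_left (norm_nonneg _) (hN τ hτ)
    have h1 := ih (N.erase τ) (fun x => c x * (z x - z τ)) (2 * η)
      (by rw [card_erase_of_mem hτ]; omega) (fun x hx => hN x (mem_of_mem_erase hx))
      (by positivity) fun j h1 => by
        rw [e]
        have := norm_sub_le (∑ x ∈ N, c x * z x ^ (j + 1)) (z τ * ∑ x ∈ N, c x * z x ^ j)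
        have := hv (j + 1) (by omega)
        have := hv j (by omega)
        have := hm j
        linarith
    have h2 : ∀ j ≤ n, ‖∑ x ∈ N, c x * z x ^ j‖ ≤ η + j * ((1 + 2 * n) ^ M * (2 * η)) := by
      intro j
      induction j with
      | zero => exact fun _ => by simpa using hv 0 (by omega)
      | succ j ij =>
        intro hj
        have a := h1 j (by omega)
        rw [e] at a
        have := norm_le_norm_sub_add (∑ x ∈ N, c x * z x ^ (j + 1)) (z τ * ∑ x ∈ N, c x * z x ^ j)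
        have := ij (by omega)
        have := hm j
        push_cast
        linarith
    intro j hj
    have n0 : (0 : ℝ) ≤ n := Nat.cast_nonneg n
    have a : (1 : ℝ) ≤ (1 + 2 * n) ^ M := one_le_pow₀ (by linarith)
    have b : (j : ℝ) * ((1 + 2 * n) ^ M * (2 * η)) ≤ n * ((1 + 2 * n) ^ M * (2 * η)) :=
      mul_le_mul_of_nonneg_right (by exact_mod_cast hj) (by positivity)
    have d := le_mul_of_one_le_left hη a
    have := h2 j hj
    rw [pow_succ]
    linarith

lemma pack_re {α : Type} (F : Finset α) (φ : α → ℝ) {B h W : ℝ} (hh : 0 < h) (hB : 0 ≤ B)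
    (hφ : ∀ s ∈ F, |φ s| ≤ B)
    (hW : ∀ G ⊆ F, (∀ s ∈ G, ∀ t ∈ G, |φ s - φ t| ≤ h) → (G.card : ℝ) ≤ W) :
    (F.card : ℝ) ≤ (2 * (B / h) + 3) * W := by
  classical
  have W0 : 0 ≤ W := by simpa using hW ∅ (empty_subset _) (by simp)
  have hM : ∀ s ∈ F, ⌊φ s / h⌋ ∈ Icc (-(⌈B / h⌉₊ : ℤ)) ⌈B / h⌉₊ := fun s hs => by
    have a := abs_le.1 (hφ s hs)
    have b := Nat.le_ceil (B / h)
    have c : φ s / h ≤ B / h := by gcongr; exact a.2
    have d : -B / h ≤ φ s / h := by gcongr; exact a.1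
    rw [neg_div] at d
    rw [mem_Icc, Int.le_floor, Int.floor_le_iff]
    push_cast
    constructor <;> linarith
  rw [card_eq_sum_card_fiberwise (f := fun s => ⌊φ s / h⌋) fun s hs => mem_coe.2 (hM s hs),
    Nat.cast_sum]
  refine (sum_le_card_nsmul _ _ W fun b _ => hW _ (filter_subset _ _) fun s hs t ht => ?_).trans ?_
  · have a := Int.abs_sub_lt_one_of_floor_eq_floor ((mem_filter.1 hs).2.trans (mem_filter.1 ht).2.symm)
    rw [← sub_div, abs_div, abs_of_pos hh, div_lt_one hh] at a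
    exact a.le
  · rw [nsmul_eq_mul, Int.card_Icc]
    refine mul_le_mul_of_nonneg_right ?_ W0
    have a := (Nat.ceil_lt_add_one (div_nonneg hB hh.le)).le
    have b : ((⌈B / h⌉₊ : ℤ) + 1 - -(⌈B / h⌉₊ : ℤ)).toNat = 2 * ⌈B / h⌉₊ + 1 := by omega
    rw [b]
    push_cast
    linarith

/-- Packing: splitting a family according to `r` rounded complex numbers. -/
lemma pack {α : Type} (φ : α → ℕ → ℂ) {B h W : ℝ} (hh : 0 < h) (hB : 0 ≤ B) (r : ℕ) :
    ∀ F : Finset α, (∀ s ∈ F, ∀ i < r, ‖φ s i‖ ≤ B) →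
    (∀ G ⊆ F, (∀ s ∈ G, ∀ t ∈ G, ∀ i < r, ‖φ s i - φ t i‖ ≤ 2 * h) → (G.card : ℝ) ≤ W) →
    (F.card : ℝ) ≤ (2 * (B / h) + 3) ^ (2 * r) * W := by
  induction r generalizing W with
  | zero => exact fun F _ hW => by simpa using hW F Subset.rfl (by simp)
  | succ r ih =>
    intro F hφ hW
    rw [show 2 * (r + 1) = 2 * r + 1 + 1 by ring, pow_succ, pow_succ, mul_assoc, mul_assoc]
    refine ih F (fun s hs i hi => hφ s hs i (by omega)) fun G hG h1 => ?_
    refine pack_re G (fun s => (φ s r).re) hh hB (fun s hs =>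
      (Complex.abs_re_le_norm _).trans (hφ s (hG hs) r (by omega))) fun G' hG' h2 => ?_
    refine pack_re G' (fun s => (φ s r).im) hh hB (fun s hs =>
      (Complex.abs_im_le_norm _).trans (hφ s (hG (hG' hs)) r (by omega))) fun G'' hG'' h3 => ?_
    refine hW _ (hG''.trans (hG'.trans hG)) fun s hs t ht i hi => ?_
    rcases Nat.lt_succ_iff_lt_or_eq.1 hi with hi | rfl
    · exact h1 s (hG' (hG'' hs)) t (hG' (hG'' ht)) i hi
    · have a := h2 s (hG'' hs) t (hG'' ht)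
      have b := h3 s hs t ht
      have c := Complex.norm_le_abs_re_add_abs_im (φ s i - φ t i)
      rw [Complex.sub_re, Complex.sub_im] at c
      linarith

end Pool.Agent.Lib.MP_162bbe_gt.Ct
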