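import Pool.Agent.Lib.MP_162bbe_gt.Ct.Head

set_option autoImplicit false

/-! Counting irreducible monic integer polynomials with few roots outside the unit disc. -/

namespace Pool.Agent.Lib.MP_162bbe_gt.Ct

open Finset Polynomial

variable {m : ℕ} {Q : ℝ} {s t : Finset ℂ}

lemma int_small {z : ℤ} {c : ℝ} (hc : 1 ≤ c) (h : c * |(z : ℝ)| < 1) : z = 0 := by
  have a := le_mul_of_one_le_left (abs_nonneg (z : ℝ)) hc
  exact Int.abs_lt_one_iff.1 (by exact_mod_cast a.trans_lt h)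

lemma nat_close {a b : ℕ} (h : ‖(a : ℂ) - b‖ < 1) : a = b := by
  have e : (a : ℂ) - b = ((a - b : ℤ) : ℂ) := by push_cast; rfl
  rw [e, Complex.norm_intCast, ← one_mul |_|] at h
  have := int_small le_rfl h
  omega

lemma esymm_close (hs : Good m Q s) (ht : Good m Q t) {r : ℕ}
    (h : ∀ i < r, ‖∑ x ∈ s, x ^ i - ∑ x ∈ t, x ^ i‖ < 1) (j : ℕ) :
    0 < j → j < r → s.val.esymm j = t.val.esymm j := by
  induction j using Nat.strong_induction_on with
  | _ j ih =>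
    intro j0 jr
    obtain ⟨a, ha⟩ := hs.int j
    obtain ⟨b, hb⟩ := ht.int j
    have c := h j jr
    rw [psum_sub s t j j0 fun i i0 ij => ih i ij i0 (by omega), ha, hb, ← Int.cast_sub, norm_mul,
      norm_mul, norm_pow, norm_neg, norm_one, one_pow, one_mul, Complex.norm_natCast,
      Complex.norm_intCast] at c
    rw [ha, hb, sub_eq_zero.1 (int_small (by exact_mod_cast j0) c)]

lemma exists_cut (f : ℕ → ℝ) {Y : ℝ} (h0 : f 0 ≤ Y) (n : ℕ) :
    ∃ K ≤ n, f K ≤ Y ∧ (K = n ∨ K + 1 ≤ n ∧ Y ≤ f (K + 1)) := by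
  induction n with
  | zero => exact ⟨0, le_rfl, h0, .inl rfl⟩
  | succ n ih =>
    obtain ⟨K, a, b, rfl | c⟩ := ih
    · rcases le_total (f (K + 1)) Y with d | d
      · exact ⟨K + 1, le_rfl, d, .inl rfl⟩
      · exact ⟨K, by omega, b, .inr ⟨le_rfl, d⟩⟩
    · exact ⟨K, by omega, b, .inr ⟨by omega, c.2⟩⟩

theorem head_count (hQ : 1 ≤ Q) {d K : ℕ} {Y W u : ℝ} (hu : 0 < u) (F : Finset (Finset ℂ))
    (hF : ∀ s ∈ F, Good m Q s ∧ s.card = d ∧ ∑ k ∈ range (K + 1), yy s k ^ 2 / k ≤ Y)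
    (h0 : ∀ s ∈ F, ∀ t ∈ F, ∀ j, 0 < j → j < 2 * m + 1 → s.val.esymm j = t.val.esymm j)
    (hW : ∀ G ⊆ F, (∀ s ∈ G, ∀ t ∈ G, ∀ j, 0 < j → j < K + 1 → s.val.esymm j = t.val.esymm j) →
      (G.card : ℝ) ≤ W) :
    (F.card : ℝ) ≤ Real.exp (u * (4 * (1 + Q) ^ (4 * m) * ((2 * m + 1) * Y)) + 40 / u) * W := by
  classical
  have W0 : 0 ≤ W := by simpa using hW ∅ (empty_subset _) (by simp)
  let pre : ℕ → Finset ℂ → Finset (Finset ℂ) := fun k s =>
    F.filter fun t => ∀ j, 0 < j → j < k + 1 → s.val.esymm j = t.val.esymm j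
  have hex : ∀ (k : ℕ) (A : Finset (Finset ℂ)), ∃ t, A.Nonempty → t ∈ A ∧ ∀ s ∈ A,
      ∑ i ∈ range (2 * m + 1), yy t (k + 1 - 2 * m + i) ^ 2 ≤
        ∑ i ∈ range (2 * m + 1), yy s (k + 1 - 2 * m + i) ^ 2 := fun k A => by
    by_cases h : A.Nonempty
    · obtain ⟨t, ht⟩ := exists_min_image A
        (fun t => ∑ i ∈ range (2 * m + 1), yy t (k + 1 - 2 * m + i) ^ 2) h
      exact ⟨t, fun _ => ht⟩
    · exact ⟨∅, fun a => (h a).elim⟩
  choose ch hch using hex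
  have hself : ∀ k, ∀ s ∈ F, s ∈ pre k s := fun k s hs => mem_filter.2 ⟨hs, fun _ _ _ => rfl⟩
  have hex2 : ∀ (s : Finset ℂ) (k : ℕ), ∃ o : ℤ, s ∈ F →
      s.val.esymm (k + 1) - (ch k (pre k s)).val.esymm (k + 1) = o := fun s k => by
    by_cases h : s ∈ F
    · obtain ⟨a, ha⟩ := (hF s h).1.int (k + 1)
      obtain ⟨b, hb⟩ := (hF _ (mem_filter.1 (hch k _ ⟨s, hself k s h⟩).1).1).1.int (k + 1)
      exact ⟨a - b, fun _ => by rw [ha, hb, Int.cast_sub]⟩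
    · exact ⟨0, fun a => (h a).elim⟩
  choose o ho using hex2
  have hinj : ∀ s ∈ F, ∀ t ∈ F, (fun k : Fin K => o s k) = (fun k : Fin K => o t k) →
      ∀ j, 0 < j → j < K + 1 → s.val.esymm j = t.val.esymm j := by
    intro s hs t ht h j
    induction j using Nat.strong_induction_on with
    | _ j ih =>
      intro j0 jn
      obtain ⟨k, rfl⟩ : ∃ k, j = k + 1 := ⟨j - 1, by omega⟩
      have e : pre k s = pre k t := filter_congr fun w _ => forall_congr' fun i =>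
        forall_congr' fun a => forall_congr' fun b => by rw [ih i b a (by omega)]
      have e2 : o s k = o t k := congrFun h ⟨k, by omega⟩
      have a := ho s k hs
      rw [e, e2, ← ho t k ht] at a
      exact sub_left_injective a
  rw [card_eq_sum_card_image (fun s (k : Fin K) => o s k) F, Nat.cast_sum]
  refine (sum_le_card_nsmul _ _ W fun b _ => hW _ (filter_subset _ _) fun s hs t ht =>
    hinj s (mem_filter.1 hs).1 t (mem_filter.1 ht).1
      ((mem_filter.1 hs).2.trans (mem_filter.1 ht).2.symm)).trans ?_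
  rw [nsmul_eq_mul]
  refine mul_le_mul_of_nonneg_right (MP_1e748d_nt.count_le K _ u hu _ fun w hw => ?_) W0
  obtain ⟨s, hs, rfl⟩ := mem_image.1 hw
  have h1 : ∀ k ∈ range K, ((k : ℝ) + 1) * |(o s k : ℝ)| ≤ 4 * (1 + Q) ^ (4 * m) *
      if 2 * m ≤ k then ∑ i ∈ range (2 * m + 1),
        yy s (k + 1 - 2 * m + i) ^ 2 / ((k + 1 - 2 * m + i : ℕ) : ℝ) else 0 := fun k _ => by
    have a := hch k _ ⟨s, hself k s hs⟩
    have b := mem_filter.1 a.1
    by_cases hk : k < 2 * m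
    · have c := ho s k hs
      rw [h0 s hs _ b.1 (k + 1) (by omega) (by omega), sub_self, eq_comm, Int.cast_eq_zero] at c
      rw [c, if_neg (by omega)]
      simp
    · have c := offset (hF s hs).1 (hF _ b.1).1 hQ (hF s hs).2.1 (hF _ b.1).2.1 b.2
        (a.2 s (hself k s hs)) (ho s k hs)
      rwa [if_neg hk, zero_add] at c
  rw [Fin.sum_univ_eq_sum_range (fun k => ((k : ℝ) + 1) * |(o s k : ℝ)|) K]
  refine (sum_le_sum h1).trans ?_
  rw [← mul_sum]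
  refine mul_le_mul_of_nonneg_left ?_ (by positivity)
  refine (window (fun j => yy s j ^ 2 / j) (fun j => by positivity) (2 * m) K).trans ?_
  push_cast
  exact mul_le_mul_of_nonneg_left (hF s hs).2.2 (by positivity)

theorem coprime_count (hQ : 1 ≤ Q) {n : ℕ} (hn : 2 ≤ n) (F : Finset (Finset ℂ))
    (hd : (F : Set (Finset ℂ)).PairwiseDisjoint id)
    (hF : ∀ s ∈ F, Good m Q s ∧ Intg s ∧ s.card ≤ n) {u : ℝ} (hu : 0 < u) :
    (F.card : ℝ) ≤ (8 * n * Q ^ (2 * m) * (1 + 2 * n) ^ (2 * m) + 3) ^ (8 * m + 6) *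
      (Real.exp (u * (4 * (1 + Q) ^ (4 * m) * ((2 * m + 1) * (9 + 8 * m * n * Real.log Q +
        2 * (m + 1) ^ 2 * (1 + Real.log n)))) + 40 / u) * (8 * n * Real.log n)) := by
  classical
  have n2 : (2 : ℝ) ≤ n := by exact_mod_cast hn
  have l0 : 1 / 2 ≤ Real.log n :=
    le_trans (by linarith [Real.log_two_gt_d9]) (Real.log_le_log two_pos n2)
  have L0 : 0 ≤ Real.log Q := Real.log_nonneg hQ
  obtain ⟨Y, hY⟩ : ∃ Y : ℝ, Y = 9 + 8 * m * n * Real.log Q +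
    2 * (m + 1) ^ 2 * (1 + Real.log n) := ⟨_, rfl⟩
  have Y0 : 0 ≤ Y := by rw [hY]; positivity
  choose K hK using fun s : Finset ℂ => exists_cut
    (fun K => ∑ k ∈ range (K + 1), yy s k ^ 2 / k) (Y := Y) (by simpa using Y0) n
  have p1 : (1 : ℝ) ≤ (1 + 2 * n) ^ (2 * m) := one_le_pow₀ (by linarith)
  have q1 : 1 ≤ Q ^ (2 * m) := one_le_pow₀ hQ
  obtain ⟨h, hh⟩ : ∃ h : ℝ, h = 1 / (4 * (1 + 2 * n) ^ (2 * m)) := ⟨_, rfl⟩
  have h0 : 0 < h := by rw [hh]; positivity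
  have h1 : (1 + 2 * n) ^ (2 * m) * (2 * h) = 1 / 2 := by rw [hh]; field_simp; norm_num
  have h2 : 2 * h < 1 := by nlinarith
  have hD : 8 * n * Q ^ (2 * m) * (1 + 2 * n) ^ (2 * m) = 2 * (n * Q ^ (2 * m) / h) := by
    rw [hh]; field_simp; norm_num
  have B0 : 0 ≤ n * Q ^ (2 * m) := by positivity
  have B1 : (n : ℝ) ≤ n * Q ^ (2 * m) := le_mul_of_one_le_right (by linarith) q1
  have hb : ∀ s ∈ F, ∀ w ⊆ s, ∀ (i : ℕ) (c : ℝ), 0 ≤ c → (∀ x ∈ w, ‖x‖ ^ i ≤ c) →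
      ‖∑ x ∈ w, x ^ i‖ ≤ n * c := fun s hs w hw i c c0 hc => by
    refine (norm_sum_le _ _).trans ((sum_le_card_nsmul _ _ c fun x hx =>
      (norm_pow x i).trans_le (hc x hx)).trans ?_)
    rw [nsmul_eq_mul]
    exact mul_le_mul_of_nonneg_right
      (by exact_mod_cast (card_le_card hw).trans (hF s hs).2.2) c0
  rw [← hY, hD, show 8 * m + 6 = 2 * 1 + (2 * (2 * m + 1) + 2 * (2 * m + 1)) by ring, pow_add,
    pow_add, mul_assoc, mul_assoc]
  refine pack (fun s _ => (K s : ℂ)) h0 B0 1 F (fun s _ _ _ => ?_) fun F₁ a₁ b₁ => ?_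
  · rw [Complex.norm_natCast]
    exact le_trans (by exact_mod_cast (hK s).1) B1
  refine pack (fun s i => ∑ x ∈ s, x ^ i) h0 B0 _ F₁ (fun s hs i hi =>
    hb s (a₁ hs) s Subset.rfl i _ (by linarith) fun x hx => (pow_le_pow_left₀ (norm_nonneg x)
      ((hF s (a₁ hs)).1.bd x hx) i).trans (pow_le_pow_right₀ hQ (by omega))) fun F₂ a₂ b₂ => ?_
  refine pack (fun s i => ii s (K s + 1 - i)) h0 B0 _ F₂ (fun s hs i _ =>
    hb s (a₁ (a₂ hs)) _ (filter_subset _ _) _ _ (by linarith) fun x hx =>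
      (pow_le_one₀ (norm_nonneg x) (mem_filter.1 hx).2).trans q1) fun F₃ a₃ b₃ => ?_
  have a₄ : F₃ ⊆ F := a₃.trans (a₂.trans a₁)
  rcases F₃.eq_empty_or_nonempty with rfl | ⟨t, ht⟩
  · rw [card_empty, Nat.cast_zero]
    positivity
  have e1 : ∀ s ∈ F₃, K s = K t := fun s hs =>
    nat_close ((b₁ s (a₂ (a₃ hs)) t (a₂ (a₃ ht)) 0 one_pos).trans_lt h2)
  have e2 : ∀ s ∈ F₃, s.card = t.card := fun s hs => nat_close (by
    simpa using (b₂ s (a₃ hs) t (a₃ ht) 0 (by omega)).trans_lt h2)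
  refine head_count hQ hu F₃ (K := K t) (fun s hs => ⟨(hF s (a₄ hs)).1, e2 s hs, e1 s hs ▸ (hK s).2.1⟩)
    (fun s hs w hw => esymm_close (hF s (a₄ hs)).1 (hF w (a₄ hw)).1 fun i hi =>
      (b₂ s (a₃ hs) w (a₃ hw) i hi).trans_lt h2) fun G a₅ b₅ => ?_
  rcases G.eq_empty_or_nonempty with rfl | ⟨w, hw⟩
  · rw [card_empty, Nat.cast_zero]
    positivity
  rw [← e1 w (a₅ hw)] at b₅
  rcases (hK w).2.2 with c | c
  · have : G.card ≤ 1 := card_le_one.2 fun s hs v hv => eq_of_esymm s v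
      ((e2 s (a₅ hs)).trans (e2 v (a₅ hv)).symm) fun j j0 j1 => b₅ s hs v hv j j0 (by
        have := (hF s (a₄ (a₅ hs))).2.2
        omega)
    have : (G.card : ℝ) ≤ 1 := by exact_mod_cast this
    nlinarith
  refine fiber (t := w) hQ hn c.1 G (hd.subset (coe_subset.2 (a₅.trans a₄)))
    (fun s hs => hF s (a₄ (a₅ hs))) (fun s hs k k0 k1 => ?_) (hY ▸ c.2)
  refine (close (hF s (a₄ (a₅ hs))).1 (hF w (a₄ (a₅ hw))).1 (hK w).1 (b₅ s hs w hw) (η := 2 * h)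
    (fun i hi => ?_) k0 k1).trans (by linarith)
  have := b₃ s (a₅ hs) w (a₅ hw) i hi
  rwa [e1 s (a₅ hs), ← e1 w (a₅ hw)] at this

lemma eq_of_root {P R : ℤ[X]} (hP : P.Monic) (hR : R.Monic) (iP : Irreducible P)
    (iR : Irreducible R) {z : ℂ} (zP : z ∈ P.aroots ℂ) (zR : z ∈ R.aroots ℂ) : P = R := by
  have h : ∀ P : ℤ[X], P.Monic → Irreducible P → z ∈ P.aroots ℂ → minpoly ℤ z = P :=
    fun P a b c => by
      have d : IsIntegral ℤ z := ⟨P, a, (mem_aroots'.1 c).2⟩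
      exact eq_of_monic_of_associated (minpoly.monic d) a ((minpoly.irreducible d).associated_of_dvd
        b (minpoly.isIntegrallyClosed_dvd d (mem_aroots'.1 c).2))
  rw [← h P hP iP zP, h R hR iR zR]

lemma sharp_arith (m : ℕ) : ∃ C : ℝ, ∀ Q n : ℝ, 1 ≤ Q → 2 ≤ n → ∃ u : ℝ, 0 < u ∧
    (8 * n * Q ^ (2 * m) * (1 + 2 * n) ^ (2 * m) + 3) ^ (8 * m + 6) *
      (Real.exp (u * (4 * (1 + Q) ^ (4 * m) * ((2 * m + 1) * (9 + 8 * m * n * Real.log Q +
        2 * (m + 1) ^ 2 * (1 + Real.log n)))) + 40 / u) * (8 * n * Real.log n)) ≤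
      Real.exp (C * Q ^ (2 * m + 1) * (√(n * Real.log Q) + Real.log n)) := by
  obtain ⟨K, hK⟩ : ∃ K : ℝ, K = 4 * 2 ^ (4 * m) * ((2 * m + 1) * (36 + 8 * m + 12 * (m + 1) ^ 2)) :=
    ⟨_, rfl⟩
  refine ⟨((5 + 10 * m) * (8 * m + 6) + 5 : ℕ) + (K + 40), fun Q n hQ hn => ?_⟩
  have l0 : 1 / 2 ≤ Real.log n :=
    le_trans (by linarith [Real.log_two_gt_d9]) (Real.log_le_log two_pos hn)
  have l1 : Real.log n ≤ n := (Real.log_le_sub_one_of_pos (by linarith)).trans (by linarith)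
  have L0 : 0 ≤ Real.log Q := Real.log_nonneg hQ
  have s0 := Real.sqrt_nonneg (n * Real.log Q)
  have s1 := Real.sq_sqrt (by positivity : 0 ≤ n * Real.log Q)
  have q1 : Q ≤ Q ^ (2 * m + 1) := le_self_pow₀ hQ (by omega)
  have en := Real.exp_log (by linarith : 0 < n)
  rw [mul_assoc _ (Q ^ (2 * m + 1))]
  generalize √(n * Real.log Q) = S at *
  generalize Real.log n = l at *
  generalize Real.log Q = L at *
  obtain ⟨W, hW⟩ : ∃ W, W = Q ^ (2 * m + 1) * (S + l) := ⟨_, rfl⟩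
  have W1 : Q * l ≤ W := by rw [hW]; gcongr; linarith
  have W2 : l ≤ W := by nlinarith
  have W0 : 0 < W := by linarith
  have nE : n ≤ Real.exp W := en ▸ Real.exp_le_exp.2 W2
  have QE : Q ≤ Real.exp W ^ 2 := by
    rw [← Real.exp_nat_mul]
    refine le_trans ?_ (Real.add_one_le_exp _)
    push_cast
    nlinarith
  have Q0 : 0 ≤ Q := by linarith
  have n0 : 0 ≤ n := by linarith
  have n3 : 8 ≤ n ^ 3 := le_trans (by norm_num) (pow_le_pow_left₀ zero_le_two hn 3)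
  have n4 : 1 + 2 * n ≤ n ^ 3 := by
    have : 2 * 2 * n ≤ n * n * n := by gcongr
    linarith
  have a1 : 8 * n * Q ^ (2 * m) * (1 + 2 * n) ^ (2 * m) + 3 ≤ Real.exp W ^ (5 + 10 * m) := by
    have b : 1 ≤ Q ^ (2 * m) * (1 + 2 * n) ^ (2 * m) :=
      one_le_mul_of_one_le_of_one_le (one_le_pow₀ hQ) (one_le_pow₀ (by linarith))
    calc _ ≤ n * n ^ 3 * n * (Q ^ (2 * m) * (1 + 2 * n) ^ (2 * m)) := by
          have c : 2 * 8 * n ≤ n * n ^ 3 * n := by gcongr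
          have d := mul_le_mul_of_nonneg_right c (zero_le_one.trans b)
          have e := mul_le_mul hn b zero_le_one n0
          linarith
      _ ≤ Real.exp W * Real.exp W ^ 3 * Real.exp W *
          ((Real.exp W ^ 2) ^ (2 * m) * (Real.exp W ^ 3) ^ (2 * m)) := by
          gcongr
          exact n4.trans (by gcongr)
      _ = _ := by ring
  have a2 : 8 * n * l ≤ Real.exp W ^ 5 := by
    calc _ ≤ n ^ 3 * n * n := by gcongr
      _ ≤ Real.exp W ^ 3 * Real.exp W * Real.exp W := by gcongr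
      _ = _ := by ring
  have a3 : 4 * (1 + Q) ^ (4 * m) * ((2 * m + 1) * (9 + 8 * m * n * L +
      2 * (m + 1) ^ 2 * (1 + l))) ≤ K * (W * W) := by
    have b1 : (1 + Q) ^ (4 * m) ≤ 2 ^ (4 * m) * (Q ^ (2 * m + 1)) ^ 2 := by
      calc _ ≤ (2 * Q) ^ (4 * m) := by gcongr; linarith
        _ ≤ _ := by
          rw [mul_pow, ← pow_mul]
          exact mul_le_mul_of_nonneg_left (pow_le_pow_right₀ hQ (by omega)) (by positivity)
    have b2 : 1 ≤ 4 * (S + l) ^ 2 := by nlinarith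
    have b3 : n * L ≤ (S + l) ^ 2 := by nlinarith
    have b4 : 1 + l ≤ 6 * (S + l) ^ 2 := by nlinarith
    have b5 := mul_le_mul_of_nonneg_left b3 (by positivity : (0 : ℝ) ≤ 8 * m)
    have b6 := mul_le_mul_of_nonneg_left b4 (by positivity : (0 : ℝ) ≤ 2 * (m + 1) ^ 2)
    calc _ ≤ 4 * (2 ^ (4 * m) * (Q ^ (2 * m + 1)) ^ 2) * ((2 * m + 1) *
          ((36 + 8 * m + 12 * (m + 1) ^ 2) * (S + l) ^ 2)) := by
          gcongr
          linarith
      _ = _ := by rw [hK, hW]; ring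
  refine ⟨W⁻¹, inv_pos.2 W0, ?_⟩
  have a4 := mul_le_mul_of_nonneg_left a3 (inv_pos.2 W0).le
  rw [show W⁻¹ * (K * (W * W)) = K * W by field_simp] at a4
  rw [← hW, div_inv_eq_mul]
  calc _ ≤ (Real.exp W ^ (5 + 10 * m)) ^ (8 * m + 6) *
        (Real.exp ((K + 40) * W) * Real.exp W ^ 5) := by
        gcongr
        linarith
    _ = _ := by
      rw [add_mul _ (K + 40), Real.exp_add, Real.exp_nat_mul, pow_add, pow_mul]
      ring

theorem sharp (m : ℕ) : ∃ C : ℝ, ∀ (Q : ℝ) (n : ℕ), 1 ≤ Q → 2 ≤ n → ∃ T : Finset ℤ[X],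
    (T.card : ℝ) ≤ Real.exp (C * Q ^ (2 * m + 1) * (√(n * Real.log Q) + Real.log n)) ∧
    ∀ P : ℤ[X], P.Monic → Irreducible P → (P.aroots ℂ).Nodup → P.natDegree ≤ n →
      ((P.aroots ℂ).filter (fun z => 1 < ‖z‖)).card ≤ m → (∀ z ∈ P.aroots ℂ, ‖z‖ ≤ Q) →
      P ∈ T := by
  classical
  obtain ⟨C, hC⟩ := sharp_arith m
  refine ⟨C, fun Q n hQ hn => ?_⟩
  obtain ⟨u, hu, hC⟩ := hC Q n hQ (by exact_mod_cast hn)
  obtain ⟨S, hS⟩ : ∃ S : Set ℤ[X], S = {P | P.Monic ∧ Irreducible P ∧ (P.aroots ℂ).Nodup ∧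
      P.natDegree ≤ n ∧ ((P.aroots ℂ).filter (fun z => 1 < ‖z‖)).card ≤ m ∧
      ∀ z ∈ P.aroots ℂ, ‖z‖ ≤ Q} := ⟨_, rfl⟩
  generalize Real.exp (C * Q ^ (2 * m + 1) * (√(n * Real.log Q) + Real.log n)) = E at hC ⊢
  have key : ∀ F : Finset ℤ[X], (F : Set ℤ[X]) ⊆ S → (F.card : ℝ) ≤ E := by
    intro F hF
    rw [hS] at hF
    have hinj : Set.InjOn (fun P : ℤ[X] => (P.aroots ℂ).toFinset) F := fun P hP R hR h => by
      refine map_injective (algebraMap ℤ ℂ) (algebraMap ℤ ℂ).injective_int ?_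
      simp only at h ⊢
      rw [eq_prod (hF hP).1 (hF hP).2.2.1, eq_prod (hF hR).1 (hF hR).2.2.1, h]
    rw [← card_image_of_injOn hinj]
    refine (coprime_count (m := m) hQ hn _ (fun s hs t ht h => ?_) (fun s hs => ?_) hu).trans hC
    · obtain ⟨P, hP, rfl⟩ := mem_image.1 hs
      obtain ⟨R, hR, rfl⟩ := mem_image.1 ht
      refine disjoint_left.2 fun z a b => h ?_
      rw [eq_of_root (hF hP).1 (hF hR).1 (hF hP).2.1 (hF hR).2.1 (Multiset.mem_toFinset.1 a)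
        (Multiset.mem_toFinset.1 b)]
    · obtain ⟨P, hP, rfl⟩ := mem_image.1 hs
      obtain ⟨a, -, b, c, d, e⟩ := hF hP
      have f := int_disc _ P (eq_prod a b)
      refine ⟨⟨f.1, f.2, ?_, fun x hx => e x (Multiset.mem_toFinset.1 hx)⟩, ⟨P, eq_prod a b⟩,
        (Multiset.toFinset_card_le _).trans ((card_roots' _).trans (natDegree_map_le.trans c))⟩
      rw [card_def, filter_val, Multiset.toFinset_val, b.dedup]
      simpa only [not_le] using d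
  have fin : S.Finite := by
    by_contra h
    obtain ⟨F, h1, h2⟩ := Set.Infinite.exists_subset_card_eq h (⌈E⌉₊ + 1)
    have a := key F h1
    have b := Nat.le_ceil E
    rw [h2] at a
    push_cast at a
    linarith
  exact ⟨fin.toFinset, key _ (by simp),
    fun P a b c d e f => fin.mem_toFinset.2 (hS ▸ ⟨a, b, c, d, e, f⟩)⟩

end Pool.Agent.Lib.MP_162bbe_gt.Ct
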