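import Pool.Agent.Lib.MP_162bbe_gt.Ct.CfDef
import Pool.Agent.Lib.MP_162bbe_gt.Ct.Fld

/-! The possible spectra of short elements and their number. -/

namespace Pool.Agent.Lib.MP_162bbe_gt.Ct

open Polynomial Module IntermediateField Finset

/-- Tuples of monic polynomials of degree `M` with all roots in `Zs`. -/
def Spec (r M m c : ℕ) (Q : ℝ) : Set (Fin r → ℂ[X]) :=
  {p | ∃ f : Fin r × Fin M → ℂ, (∀ i, p i = ∏ j, (X - C (f (i, j)))) ∧
    ∀ x i, f x ∈ Zs m Q (c * finrank ℚ (Cf (p i)))}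

theorem zs_count (m c : ℕ) (hc : 1 ≤ c) : ∃ C : ℝ, ∀ (Q : ℝ) (d : ℕ), 1 ≤ Q → 2 ≤ d →
    ∃ Z : Finset ℂ,
      (#Z : ℝ) ≤ Real.exp (C * Q ^ (2 * m + 1) * (√(d * Real.log Q) + Real.log d)) ∧
      ∀ n ≤ c * d, ∀ z ∈ Zs m Q n, z ∈ Z := by
  classical
  obtain ⟨C, hC⟩ := sharp m
  refine ⟨(|C| + 1) * (2 * c), fun Q d hQ hd => ?_⟩
  have hn : 2 ≤ c * d := hd.trans (Nat.le_mul_of_pos_left _ hc)
  obtain ⟨T, hT, h⟩ := hC Q (c * d) hQ hn
  obtain ⟨Z, hZ⟩ : ∃ Z : Finset ℂ,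
      Z = (T.filter fun P => P.natDegree ≤ c * d).biUnion fun P => (P.aroots ℂ).toFinset := ⟨_, rfl⟩
  refine ⟨Z, ?_, ?_⟩
  · have h1 : #Z ≤ #T * (c * d) := hZ ▸ (card_biUnion_le_card_mul _ _ (c * d) fun P hP =>
      (Multiset.toFinset_card_le _).trans ((card_roots' _).trans
        (natDegree_map_le.trans (mem_filter.1 hP).2))).trans
      (Nat.mul_le_mul_right _ (card_filter_le _ _))
    have h2 := sqrt_le hc hd (Real.log_nonneg hQ)
    set n := c * d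
    have h3 : (2 : ℝ) ≤ n := by exact_mod_cast hn
    have h4 : 0 ≤ Real.log n := Real.log_nonneg (by linarith)
    have h5 : Real.log n ≤ √(n * Real.log Q) + Real.log n := le_add_of_nonneg_left (by positivity)
    have h6 : 1 ≤ Q ^ (2 * m + 1) := one_le_pow₀ hQ
    generalize √(n * Real.log Q) + Real.log n = V at *
    have h8 := h4.trans h5
    have h7 : (#Z : ℝ) ≤ Real.exp ((|C| + 1) * Q ^ (2 * m + 1) * V) := by
      calc (#Z : ℝ) ≤ #T * n := by exact_mod_cast h1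
        _ ≤ Real.exp (|C| * Q ^ (2 * m + 1) * V) * Real.exp (Q ^ (2 * m + 1) * V) := by
          refine mul_le_mul (hT.trans ?_) ?_ (by positivity) (by positivity)
          · gcongr; exact le_abs_self C
          · rw [← Real.log_le_iff_le_exp (by linarith)]
            exact h5.trans (le_mul_of_one_le_left h8 h6)
        _ = _ := by rw [← Real.exp_add]; ring_nf
    calc (#Z : ℝ) ≤ Real.exp ((|C| + 1) * Q ^ (2 * m + 1) *
          (2 * c * (√(d * Real.log Q) + Real.log d))) := by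
          refine h7.trans ?_
          gcongr
      _ = _ := by ring_nf
  · rintro n hn' z ⟨P, h1, h0, h2, h3, h4, h5, h6⟩
    have h7 := h3.trans hn'
    exact hZ ▸ mem_biUnion.2
      ⟨P, mem_filter.2 ⟨h P h1 h0 h2 h7 h4 h5, h7⟩, Multiset.mem_toFinset.2 h6⟩

theorem spec_count (r M m c : ℕ) (hc : 1 ≤ c) : ∃ C : ℝ, ∀ (Q : ℝ) (d : ℕ), 1 ≤ Q → 2 ≤ d →
    ∃ T : Finset (Fin r → ℂ[X]),
      (#T : ℝ) ≤ Real.exp (C * Q ^ (2 * m + 1) * (√(d * Real.log Q) + Real.log d)) ∧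
      ∀ p ∈ Spec r M m c Q, ∀ i, finrank ℚ (Cf (p i)) ≤ d → p ∈ T := by
  classical
  obtain ⟨C, hC⟩ := zs_count m c hc
  refine ⟨(r * M : ℕ) * C, fun Q d hQ hd => ?_⟩
  obtain ⟨Z, hZ, h⟩ := hC Q d hQ hd
  refine ⟨(Fintype.piFinset fun _ : Fin r × Fin M => Z).image fun f i =>
    ∏ j, (X - Polynomial.C (f (i, j))), ?_, ?_⟩
  · refine (Nat.cast_le.2 card_image_le).trans ?_
    rw [Fintype.card_piFinset, prod_const, card_univ, Fintype.card_prod, Fintype.card_fin,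
      Fintype.card_fin, Nat.cast_pow]
    refine (pow_le_pow_left₀ (Nat.cast_nonneg _) hZ _).trans (le_of_eq ?_)
    rw [← Real.exp_nat_mul]
    ring_nf
  · rintro p ⟨f, hp, hf⟩ i hd'
    exact mem_image.2 ⟨f, Fintype.mem_piFinset.2 fun x =>
      h _ (Nat.mul_le_mul_left c hd') _ (hf x i), funext fun i => (hp i).symm⟩

variable {k : Type} [Field k] [NumberField k] {χ : k[X]}

theorem cf_map (σ : k →+* ℂ) :
    Cf (χ.map σ) = (adjoin ℚ (Set.range χ.coeff)).map σ.toRatAlgHom := by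
  rw [Cf, adjoin_map, ← Set.range_comp]
  congr 2
  ext n
  exact coeff_map _ _

theorem cf_index {S : Set (k →+* ℂ)} (hcirc : ∀ σ ∉ S, ∀ z, eval₂ σ z χ = 0 → ‖z‖ = 1)
    {s : k →+* ℂ} {z : ℂ} (hz : eval₂ s z χ = 0) (hz1 : ‖z‖ ≠ 1) (σ : k →+* ℂ) :
    finrank ℚ k ≤ S.ncard * finrank ℚ (Cf (χ.map σ)) := by
  classical
  let k₀ : IntermediateField ℚ k := adjoin ℚ (Set.range χ.coeff)
  have h1 : finrank k₀ k ≤ S.ncard := by
    let _ : Algebra k₀ ℂ := (s.comp (algebraMap k₀ k)).toAlgebra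
    rw [← AlgHom.card k₀ k ℂ, ← Nat.card_eq_fintype_card, ← Nat.card_coe_set_eq]
    refine Nat.card_le_card_of_injective (fun a : k →ₐ[k₀] ℂ => (⟨a, ?_⟩ : S))
      fun a b hab => AlgHom.coe_ringHom_injective (congrArg Subtype.val hab)
    by_contra h
    refine hz1 (hcirc _ h z ?_)
    rw [← hz, eval₂_eq_eval_map, eval₂_eq_eval_map]
    congr 1
    ext n
    rw [coeff_map, coeff_map]
    exact a.commutes ⟨_, subset_adjoin _ _ ⟨n, rfl⟩⟩
  have h2 : finrank ℚ (k₀.map σ.toRatAlgHom) = finrank ℚ k₀ :=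
    (k₀.equivMap σ.toRatAlgHom).toLinearEquiv.finrank_eq.symm
  rw [cf_map, h2, ← finrank_mul_finrank ℚ k₀ k, mul_comm]
  exact Nat.mul_le_mul_right _ h1

omit [NumberField k] in
theorem exists_roots {M : ℕ} (hm : χ.Monic) (hM : χ.natDegree = M) (σ : k →+* ℂ) :
    ∃ f : Fin M → ℂ, χ.map σ = ∏ j, (X - C (f j)) ∧ ∀ j, eval₂ σ (f j) χ = 0 := by
  obtain ⟨l, hl⟩ := Quot.exists_rep (χ.map σ).roots
  have h4 : l.length = M := by
    rw [← hM, ← hm.natDegree_map σ, (IsAlgClosed.splits _).natDegree_eq_card_roots, ← hl]; rfl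
  subst h4
  refine ⟨l.get, ?_, fun j =>
    (mem_roots_map hm.ne_zero).1 (hl ▸ Multiset.mem_coe.2 (List.get_mem l j))⟩
  rw [(IsAlgClosed.splits (χ.map σ)).eq_prod_roots_of_monic (hm.map σ), ← hl, ← List.prod_ofFn]
  change (l.map _).prod = _
  conv_lhs => rw [← List.ofFn_get l, List.map_ofFn]
  rfl

theorem zs_mem {M t n : ℕ} {Q : ℝ} (hQ : 1 ≤ Q) {S : Set (k →+* ℂ)} (hS : S.ncard ≤ t)
    (hm : χ.Monic) (hM : χ.natDegree = M) (hint : ∀ n, IsIntegral ℤ (χ.coeff n))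
    (hcirc : ∀ σ ∉ S, ∀ z, eval₂ σ z χ = 0 → ‖z‖ = 1)
    (hR : ∀ σ ∈ S, ∀ z, eval₂ σ z χ = 0 → ‖z‖ ≤ Q) (hn : finrank ℚ k * M ≤ n) {σ : k →+* ℂ}
    {z : ℂ} (h5 : eval₂ σ z χ = 0) : z ∈ Zs (t * M) Q n := by
  classical
  obtain ⟨P, hP, hirr, h6, h7, -⟩ := exists_minpoly hm hint σ h5
  have h0 : P.map (algebraMap ℤ ℂ) ≠ 0 := (hP.map _).ne_zero
  have h8 : (P.aroots ℂ).Nodup := by
    have h9 := (hP.irreducible_iff_irreducible_map_fraction_map (K := ℚ)).1 hirr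
    have h10 := nodup_roots (h9.separable.map (f := algebraMap ℚ ℂ))
    rwa [Polynomial.map_map] at h10
  have h9 : ∀ w ∈ P.aroots ℂ, ∃ s : k →+* ℂ, eval₂ s w χ = 0 := fun w hw =>
    h7 w (mem_aroots'.1 hw).2
  refine ⟨P, hP, hirr, h8, ?_, ?_, fun w hw => ?_, mem_aroots'.2 ⟨h0, h6⟩⟩
  · have h10 := card_le hm.ne_zero univ h8 fun w hw => (h9 w hw).imp fun s h => ⟨mem_univ _, h⟩
    rw [card_univ, NumberField.Embeddings.card, hM, aroots_def,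
      ← (IsAlgClosed.splits _).natDegree_eq_card_roots, hP.natDegree_map] at h10
    exact h10.trans hn
  · have h10 := card_le hm.ne_zero S.toFinite.toFinset (h8.filter fun z => 1 < ‖z‖) fun w hw => by
      obtain ⟨s, h⟩ := h9 w (Multiset.mem_filter.1 hw).1
      exact ⟨s, S.toFinite.mem_toFinset.2 (by_contra fun hs =>
        (Multiset.mem_filter.1 hw).2.ne' (hcirc s hs w h)), h⟩
    rw [← Set.ncard_eq_toFinset_card, hM] at h10
    exact h10.trans (Nat.mul_le_mul_right _ hS)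
  · obtain ⟨s, h⟩ := h9 w hw
    by_cases hs : s ∈ S
    · exact hR s hs w h
    · exact (hcirc s hs w h).trans_le hQ

theorem poly_spec {r M t : ℕ} {Q : ℝ} (hQ : 1 ≤ Q) {S : Set (k →+* ℂ)} (hS : S.ncard ≤ t)
    (hm : χ.Monic) (hM : χ.natDegree = M) (hint : ∀ n, IsIntegral ℤ (χ.coeff n))
    (hcirc : ∀ σ ∉ S, ∀ z, eval₂ σ z χ = 0 → ‖z‖ = 1)
    (hR : ∀ σ ∈ S, ∀ z, eval₂ σ z χ = 0 → ‖z‖ ≤ Q) {s : k →+* ℂ} {z : ℂ} (hz : eval₂ s z χ = 0)
    (hz1 : ‖z‖ ≠ 1) (σ : Fin r → k →+* ℂ) :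
    (fun i => χ.map (σ i)) ∈ Spec r M (t * M) (t * M + 1) Q ∧
      ∀ i, (Cf (χ.map (σ i)) : Set ℂ) ⊆ Set.range (σ i) ∧
        finrank ℚ k ≤ S.ncard * finrank ℚ (Cf (χ.map (σ i))) := by
  choose f hf hf' using fun i => exists_roots hm hM (σ i)
  refine ⟨⟨fun x => f x.1 x.2, hf, fun x i => zs_mem hQ hS hm hM hint hcirc hR ?_ (hf' x.1 x.2)⟩,
    fun i => ⟨?_, cf_index hcirc hz hz1 _⟩⟩
  · have h11 := (cf_index hcirc hz hz1 (σ i)).trans (Nat.mul_le_mul_right _ hS)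
    nlinarith [Nat.mul_le_mul_right M h11]
  · rw [cf_map]
    rintro _ ⟨x, -, rfl⟩
    exact ⟨x, rfl⟩

end Pool.Agent.Lib.MP_162bbe_gt.Ct
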