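import Pool.Agent.Lib.MP_162bbe_gt.Ct.Defs
import Pool.Agent.Lib.MP_162bbe_gt.Ct.Fld
import Pool.Agent.Lib.MP_162bbe_gt.Ad.Lift
import Pool.Agent.Lib.MP_162bbe_gt.Ad.Mah
import Pool.Agent.Lib.MP_162bbe_gt.SU.Main

/-! Short elements have finite order when the field is not exceptional. -/

namespace Pool.Agent.Lib.MP_162bbe_gt.Ct

open Module LieAlgebra NumberField Polynomial Pool.Agent.Lib.MP_162bbe_gt.Ad

variable {r : ℕ} {g : Fin r → Type} [∀ i, LieRing (g i)] [∀ i, LieAlgebra ℂ (g i)]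
  [∀ i, Module.Finite ℂ (g i)] {G : Type} [Group G] {π : ∀ i, G →* End ℂ (g i)}

theorem mem_short {R : ℝ} {u : G} :
    u ∈ Short π R ↔ ∀ i z, eval z (matH (π i) u).charpoly = 0 → ‖z‖ < R :=
  forall₂_congr fun i z => by
    rw [End.hasEigenvalue_iff_isRoot_charpoly, matH_apply, mat_charpoly, IsRoot.def]

variable [TopologicalSpace G] [IsTopologicalGroup G] {h : ∀ i, Submodule ℝ (g i)}

omit [IsTopologicalGroup G] in
theorem short_nhds (hA : Adj h π) {R : ℝ} (hR : 1 < R) : Short π R ∈ nhds (1 : G) :=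
  Filter.mem_of_superset (Filter.iInter_mem.2 fun i =>
    spec_nhds (fun _ : Fin 1 => matH (π i)) (fun _ => (hA.fac i).cont) hR)
    fun _ hu => mem_short.2 fun i => Set.mem_iInter.1 hu i 0

theorem fin_order [∀ i, IsSimple ℂ (g i)] (i₀ : Fin r) (hA : Adj h π) {R : ℝ} (hR : 1 < R)
    {Γ : Subgroup G} [CompactSpace (G ⧸ Γ)] (hΓ : ArithOff h π (Exc (finrank ℂ (g i₀))
      (2 * r * finrank ℂ (g i₀)) (2 * r * finrank ℂ (g i₀) + 1) R) Γ) {b γ : G} (hγ : γ ∈ Γ)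
    (hU : b * γ * b⁻¹ ∈ Short π R) : IsOfFinOrder γ := by
  obtain ⟨k, L, _, _, _, _, X, hX⟩ := hΓ
  have := X.finite
  have := X.idx
  choose ρ hρ using fun i => exists_frm (X.lie i) (X.dim i) (X.span i)
  have := (hρ i₀).killing
  obtain ⟨F, hF, hF1, hF2⟩ := lift hA X hρ i₀
  set S := {s | ∃ j, InfinitePlace.mk s = InfinitePlace.mk (X.σ j)} with hS
  have hS2 : S.ncard ≤ 2 * r := by
    let e : Bool × Fin r → k →+* ℂ := fun p =>
      bif p.1 then X.σ p.2 else ComplexEmbedding.conjugate (X.σ p.2)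
    have h1 : S ⊆ e '' Set.univ := by
      rintro s ⟨i, hi⟩
      rcases InfinitePlace.mk_eq_iff.1 hi.symm with h1 | h1
      · exact ⟨(true, i), trivial, h1⟩
      · exact ⟨(false, i), trivial, h1⟩
    refine (Set.ncard_le_ncard h1).trans ((Set.ncard_image_le Set.finite_univ).trans ?_)
    simp
  have hch : ∀ i z, eval z (matH (π i) γ).charpoly = eval₂ (X.σ i) z (F ⟨γ, hγ⟩).charpoly :=
    fun i z => by rw [matH_apply, mat_charpoly, eval₂_eq_eval_map, ← (hρ i).char, hF]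
  have hm := (F ⟨γ, hγ⟩).charpoly_monic
  obtain ⟨N, hN, -, hN'⟩ := Subgroup.exists_pow_mem_of_index_ne_zero
    (Subgroup.FiniteIndex.index_ne_zero (H := X.Δ)) ⟨γ, hγ⟩
  have hint := integral (X.σ i₀) X.fg X.full hN (map_pow F _ N ▸ hF2 _ hN')
  have hcirc : ∀ s ∉ S, ∀ z, eval₂ s z (F ⟨γ, hγ⟩).charpoly = 0 → ‖z‖ = 1 := fun s hs z hz =>
    circ (X.neg s fun i hi => hs ⟨i, hi⟩) ((Group.isUnit _).map F) (hF1 _) hz
  have hconj : ∀ s ∈ S, ∀ z, eval₂ s z (F ⟨γ, hγ⟩).charpoly = 0 →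
      ∃ i w, eval₂ (X.σ i) w (F ⟨γ, hγ⟩).charpoly = 0 ∧ ‖w‖ = ‖z‖ := fun s ⟨i, hi⟩ z hz => by
    obtain ⟨w, hw, h1⟩ := SU.main_conj hm.ne_zero hi ((mem_roots_map hm.ne_zero).2 hz)
    exact ⟨i, w, (mem_roots_map hm.ne_zero).1 hw, h1⟩
  have hall : ∀ (s : k →+* ℂ) z, eval₂ s z (F ⟨γ, hγ⟩).charpoly = 0 → ‖z‖ = 1 := fun s z hz => by
    by_contra hz1
    obtain ⟨i, w, hw, h1⟩ := hconj s (by_contra fun hs => hz1 (hcirc s hs z hz)) z hz
    obtain ⟨E, hE, h2, h3⟩ := poly_exc hR.le hS2 hm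
      (by rw [LinearMap.charpoly_natDegree, X.dim i₀]) hint hcirc (fun s hs z hz => by
        obtain ⟨i, w, hw, h1⟩ := hconj s hs z hz
        refine h1 ▸ (mem_short.1 hU i w ?_).le
        rwa [map_mul, Matrix.charpoly_mul_comm, ← map_mul, inv_mul_cancel_left, hch]) hw (h1 ▸ hz1)
    exact (hX i E hE h2).not_ge h3
  obtain ⟨M, hM, hnil⟩ := exists_pow_nilpotent (matH (π i₀) γ) fun z hz => by
    obtain ⟨P, -, -, -, h1, -, -, h2⟩ := exists_minpoly hm hint (X.σ i₀) (hch i₀ z ▸ hz)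
    exact h2 fun w hw => (h1 w hw).elim fun s h => hall s w h
  have : Nontrivial L := by
    obtain ⟨x, y, h1⟩ := (hρ i₀).exists_lie_ne
    exact ⟨_, _, h1⟩
  have : IsSimpleRing (End k L) :=
    have : Nonempty (Fin (finrank k L)) := ⟨⟨0, finrank_pos⟩⟩
    IsSimpleRing.of_ringEquiv (LinearMap.toMatrixAlgEquiv (finBasis k L)).symm.toRingEquiv
      inferInstance
  have : Nontrivial (g i₀) := (hρ i₀).inj.nontrivial
  have h1 : F (⟨γ, hγ⟩ ^ M) = 1 := by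
    by_contra h1
    obtain ⟨x, y, h2, h3⟩ := unip (hF1 _) ((IsNilpotent.map_iff (ρ i₀).injective).1
      ((IsNilpotent.map_iff (matE (g i₀)).injective).1 (by
        rw [map_sub, map_one, hF, map_sub, map_one, Subgroup.coe_pow, map_pow, map_pow]
        exact hnil))) h1
    exact h2 (aniso hA X hρ hF hF2 h3)
  have h2 : ∀ j i, π i ((γ ^ M) ^ j) = 1 := fun j i => by
    have h3 := hF i (⟨γ, hγ⟩ ^ M)
    rw [h1, map_one] at h3
    rw [map_pow, show π i (γ ^ M) = 1 from h3.symm, one_pow]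
  refine IsOfFinOrder.of_pow (n := M) (finite_powers.1 (hA.fin.subset ?_)) hM.ne'
  rintro _ ⟨j, rfl⟩
  exact h2 j

end Pool.Agent.Lib.MP_162bbe_gt.Ct
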