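import Pool.Agent.Lib.MP_162bbe_gt.Ct.Energy
import Pool.Agent.Lib.MP_1e748d_nt.Count

set_option autoImplicit false

/-! Counting root sets of integer polynomials with few roots outside the unit disc. -/

namespace Pool.Agent.Lib.MP_162bbe_gt.Ct

open Finset

/-- The root set of a squarefree monic integer polynomial with at most `m` roots outside the unit
disc, all of modulus at most `Q`. -/
structure Good (m : ℕ) (Q : ℝ) (s : Finset ℂ) : Prop where
  int : ∀ k, ∃ z : ℤ, s.val.esymm k = z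
  disc : 0 ≤ ∑ x ∈ s, ∑ y ∈ s.erase x, Real.log ‖x - y‖
  few : (s.filter fun x => ¬ ‖x‖ ≤ 1).card ≤ m
  bd : ∀ x ∈ s, ‖x‖ ≤ Q

/-- The power sums of the points in the unit disc. -/
noncomputable def yy (s : Finset ℂ) (k : ℕ) : ℝ := ‖∑ x ∈ s.filter fun x => ‖x‖ ≤ 1, x ^ k‖

variable {m : ℕ} {Q : ℝ} {s t : Finset ℂ}

lemma Good.inner (h : Good m Q s) (hQ : 1 ≤ Q) :
    -(2 * m * s.card * Real.log (2 * Q)) ≤ ∑ x ∈ s.filter fun x => ‖x‖ ≤ 1,
      ∑ y ∈ (s.filter fun x => ‖x‖ ≤ 1).erase x, Real.log ‖x - y‖ := by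
  classical
  have hL : 0 ≤ Real.log (2 * Q) := Real.log_nonneg (by linarith)
  have h1 : ∀ x ∈ s, ∀ y ∈ s.erase x, Real.log ‖x - y‖ ≤ Real.log (2 * Q) := fun x hx y hy => by
    refine Real.log_le_log (norm_pos_iff.2 (sub_ne_zero.2 (ne_of_mem_erase hy).symm)) ?_
    have := norm_sub_le x y
    have := h.bd x hx
    have := h.bd y (mem_of_mem_erase hy)
    linarith
  have hm : ((s.filter fun x => ¬ ‖x‖ ≤ 1).card : ℝ) ≤ m := by exact_mod_cast h.few
  have h2 : ∀ x ∈ s.filter fun x => ¬ ‖x‖ ≤ 1, ∑ y ∈ s.erase x, Real.log ‖x - y‖ ≤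
      s.card * Real.log (2 * Q) := fun x hx => by
    refine (sum_le_card_nsmul _ _ _ (h1 x (mem_filter.1 hx).1)).trans ?_
    rw [nsmul_eq_mul]
    exact mul_le_mul_of_nonneg_right (by exact_mod_cast card_erase_le) hL
  have h3 : ∀ x ∈ s.filter fun x => ‖x‖ ≤ 1, ∑ y ∈ s.erase x, Real.log ‖x - y‖ ≤
      ∑ y ∈ (s.filter fun x => ‖x‖ ≤ 1).erase x, Real.log ‖x - y‖ + m * Real.log (2 * Q) := by
    intro x hx
    rw [← sum_filter_add_sum_filter_not (s.erase x) fun x => ‖x‖ ≤ 1, filter_erase]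
    refine add_le_add_right ((sum_le_card_nsmul _ _ _ fun y hy =>
      h1 x (mem_filter.1 hx).1 y (mem_filter.1 hy).1).trans ?_) _
    rw [nsmul_eq_mul, filter_erase]
    exact mul_le_mul_of_nonneg_right (le_trans (by exact_mod_cast card_erase_le) hm) hL
  have h4 := h.disc
  rw [← sum_filter_add_sum_filter_not s fun x => ‖x‖ ≤ 1] at h4
  have h5 := sum_le_card_nsmul _ _ _ h2
  have h6 := sum_le_sum h3
  rw [sum_add_distrib, sum_const] at h6
  rw [nsmul_eq_mul] at h5 h6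
  have h7 : ((s.filter fun x => ‖x‖ ≤ 1).card : ℝ) ≤ s.card := by exact_mod_cast card_filter_le _ _
  have h8 := mul_le_mul_of_nonneg_right hm (by positivity : 0 ≤ s.card * Real.log (2 * Q))
  have h9 := mul_le_mul_of_nonneg_right h7 (by positivity : 0 ≤ m * Real.log (2 * Q))
  linarith

lemma Good.energy (h : Good m Q s) (hQ : 1 ≤ Q) {n : ℕ} (hn : 1 ≤ n) (hs : s.card ≤ n) :
    ∑ k ∈ range (n + 1), yy s k ^ 2 / k ≤
      2 * (n + n * Real.log (2 * n) + 2 * m * n * Real.log (2 * Q)) := by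
  have n1 : (1 : ℝ) ≤ n := by exact_mod_cast hn
  obtain ⟨u, hu⟩ : ∃ u : ℝ, u = 1 / (2 * n) := ⟨_, rfl⟩
  have u0 : 0 < u := by rw [hu]; positivity
  have un : u * n = 1 / 2 := by rw [hu]; field_simp
  have u1 : u ≤ 1 / 2 := by nlinarith
  have h1 := Ct.energy (s.filter fun x => ‖x‖ ≤ 1) (fun x hx => (mem_filter.1 hx).2)
    (ρ := 1 - u) (by linarith) (by linarith) (range (n + 1))
  have h2 := h.inner hQ
  have h3 : ∑ k ∈ range (n + 1), yy s k ^ 2 / k ≤ 2 * ∑ k ∈ range (n + 1),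
      (1 - u) ^ k / k * ‖∑ x ∈ s.filter fun x => ‖x‖ ≤ 1, x ^ k‖ ^ 2 := by
    rw [mul_sum]
    refine sum_le_sum fun k hk => ?_
    have k1 : (k : ℝ) ≤ n := by exact_mod_cast Nat.lt_succ_iff.1 (mem_range.1 hk)
    have b := one_add_mul_le_pow (a := -u) (by linarith) k
    have c : 1 ≤ 2 * (1 - u) ^ k := by
      rw [← sub_eq_add_neg] at b
      nlinarith
    have d : 0 ≤ yy s k ^ 2 / k := by positivity
    calc yy s k ^ 2 / k ≤ 2 * (1 - u) ^ k * (yy s k ^ 2 / k) := le_mul_of_one_le_left d c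
      _ = _ := by rw [yy]; ring
  have h4 : -Real.log (1 - u) ≤ 2 * u := by
    have a := Real.one_sub_inv_le_log_of_pos (x := 1 - u) (by linarith)
    have b : (1 - u)⁻¹ ≤ 1 + 2 * u := by
      rw [inv_le_iff_one_le_mul₀ (by linarith)]
      nlinarith
    linarith
  have h5 : Real.log (1 - (1 - u)) = -Real.log (2 * n) := by
    rw [sub_sub_cancel, hu, one_div, Real.log_inv]
  have h6 : 0 ≤ Real.log (2 * n) := Real.log_nonneg (by linarith)
  have h7 : 0 ≤ Real.log (2 * Q) := Real.log_nonneg (by linarith)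
  have h8 : (s.card : ℝ) ≤ n := by exact_mod_cast hs
  have h9 : ((s.filter fun x => ‖x‖ ≤ 1).card : ℝ) ≤ n :=
    le_trans (by exact_mod_cast card_filter_le _ _) h8
  rw [h5] at h1
  generalize ((s.filter fun x => ‖x‖ ≤ 1).card) = c at h1 h9
  have c0 : (0 : ℝ) ≤ c := Nat.cast_nonneg c
  have a1 : (c : ℝ) ^ 2 * -Real.log (1 - u) ≤ n ^ 2 * (2 * u) :=
    mul_le_mul (pow_le_pow_left₀ c0 h9 2) h4
      (neg_nonneg.2 (Real.log_nonpos (by linarith) (by linarith))) (by positivity)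
  have a2 := mul_le_mul_of_nonneg_right h9 h6
  have a3 := mul_le_mul_of_nonneg_right h8 (by positivity : 0 ≤ m * Real.log (2 * Q))
  have a4 : (n : ℝ) ^ 2 * (2 * u) = n := by
    rw [show (n : ℝ) ^ 2 * (2 * u) = 2 * n * (u * n) by ring, un]
    ring
  linarith

lemma step (hs : Good m Q s) (ht : Good m Q t) (hQ : 1 ≤ Q) {a : ℕ} (ha : 0 < a) {η : ℝ}
    (he : ∀ j, 0 < j → j < a + 2 * m → s.val.esymm j = t.val.esymm j)
    (hη : ∀ j, a ≤ j → j ≤ a + 2 * m → yy s j + yy t j ≤ η) :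
    ‖∑ x ∈ s, x ^ (a + 2 * m) - ∑ x ∈ t, x ^ (a + 2 * m)‖ ≤ (1 + Q) ^ (2 * m) * η := by
  classical
  obtain ⟨A, hA⟩ : ∃ A, A = s.filter fun x => ¬ ‖x‖ ≤ 1 := ⟨_, rfl⟩
  obtain ⟨B, hB⟩ : ∃ B, B = t.filter fun x => ¬ ‖x‖ ≤ 1 := ⟨_, rfl⟩
  have e : ∀ j, ∑ x ∈ s, x ^ j - ∑ x ∈ t, x ^ j =
      ∑ x ∈ A ∪ B, ((if x ∈ A then 1 else 0) - if x ∈ B then 1 else 0) * x ^ j +
        (∑ x ∈ s.filter fun x => ‖x‖ ≤ 1, x ^ j - ∑ x ∈ t.filter fun x => ‖x‖ ≤ 1, x ^ j) := by
    intro j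
    simp only [sub_mul, sum_sub_distrib, ite_mul, one_mul, zero_mul, sum_ite_mem,
      union_inter_cancel_left, union_inter_cancel_right]
    rw [← sum_filter_add_sum_filter_not s fun x => ‖x‖ ≤ 1,
      ← sum_filter_add_sum_filter_not t fun x => ‖x‖ ≤ 1, hA, hB]
    ring
  have hy : ∀ j, a ≤ j → j ≤ a + 2 * m → ‖∑ x ∈ s.filter fun x => ‖x‖ ≤ 1, x ^ j -
      ∑ x ∈ t.filter fun x => ‖x‖ ≤ 1, x ^ j‖ ≤ η := fun j h1 h2 =>
    (norm_sub_le _ _).trans (hη j h1 h2)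
  have h1 := predict (by linarith : 0 ≤ Q) (2 * m) (A ∪ B)
    (fun x => (if x ∈ A then 1 else 0) - if x ∈ B then 1 else 0) a η
    ((card_union_le _ _).trans (by have := hs.few; have := ht.few; rw [hA, hB]; omega))
    (fun x hx => (mem_union.1 hx).elim (fun h => hs.bd x (mem_filter.1 (hA ▸ h)).1)
      fun h => ht.bd x (mem_filter.1 (hB ▸ h)).1)
    ((norm_nonneg _).trans (hy a le_rfl (by omega))) fun j h1 h2 => by
      have b := psum_sub s t j (by omega) fun i a b => he i a (by omega)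
      rw [he j (by omega) h2, sub_self, mul_zero, e, add_eq_zero_iff_eq_neg] at b
      rw [b, norm_neg]
      exact hy j h1 h2.le
  rw [e]
  have := hy (a + 2 * m) (by omega) le_rfl
  refine (norm_add_le _ _).trans ?_
  linarith

lemma window (f : ℕ → ℝ) (hf : ∀ j, 0 ≤ f j) (M n : ℕ) :
    ∑ k ∈ range n, (if M ≤ k then ∑ i ∈ range (M + 1), f (k + 1 - M + i) else 0) ≤
      (M + 1) * ∑ j ∈ range (n + 1), f j := by
  rw [← sum_filter, sum_comm]
  refine (sum_le_card_nsmul _ _ (∑ j ∈ range (n + 1), f j) fun i hi => ?_).trans_eq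
    (by rw [card_range, nsmul_eq_mul, Nat.cast_succ])
  rw [← sum_image (f := f) (g := fun k => k + 1 - M + i) fun a ha b hb h => by
    have := (mem_filter.1 ha).2
    have := (mem_filter.1 hb).2
    simp only at h
    omega]
  refine sum_le_sum_of_subset_of_nonneg (fun j hj => ?_) fun j _ _ => hf j
  obtain ⟨k, hk, rfl⟩ := mem_image.1 hj
  have := mem_filter.1 hk
  simp only [mem_range] at *
  omega

lemma offset (hs : Good m Q s) (ht : Good m Q t) (hQ : 1 ≤ Q) {n k : ℕ} (sn : s.card = n)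
    (tn : t.card = n) (he : ∀ j, 0 < j → j < k + 1 → s.val.esymm j = t.val.esymm j)
    (hc : ∑ i ∈ range (2 * m + 1), yy t (k + 1 - 2 * m + i) ^ 2 ≤
      ∑ i ∈ range (2 * m + 1), yy s (k + 1 - 2 * m + i) ^ 2) {o : ℤ}
    (ho : s.val.esymm (k + 1) - t.val.esymm (k + 1) = o) :
    ((k : ℝ) + 1) * |(o : ℝ)| ≤ (if k < 2 * m then 2 * n * Q ^ (2 * m) else 0) +
      4 * (1 + Q) ^ (4 * m) * if 2 * m ≤ k then ∑ i ∈ range (2 * m + 1),
        yy s (k + 1 - 2 * m + i) ^ 2 / ((k + 1 - 2 * m + i : ℕ) : ℝ) else 0 := by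
  have h1 : ‖∑ x ∈ s, x ^ (k + 1) - ∑ x ∈ t, x ^ (k + 1)‖ = ((k : ℝ) + 1) * |(o : ℝ)| := by
    rw [psum_sub s t _ k.succ_pos he, ho, norm_mul, norm_mul, norm_pow, norm_neg, norm_one, one_pow,
      one_mul, Complex.norm_natCast, Complex.norm_intCast, Nat.cast_succ]
  by_cases hk : k < 2 * m
  · rw [if_pos hk, if_neg (by omega), mul_zero, add_zero, ← h1]
    have b : ∀ u : Finset ℂ, Good m Q u → u.card = n → ‖∑ x ∈ u, x ^ (k + 1)‖ ≤ n * Q ^ (2 * m) := by
      intro u hu un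
      refine (norm_sum_le _ _).trans ((sum_le_card_nsmul _ _ (Q ^ (2 * m)) fun x hx => ?_).trans_eq
        (by rw [un, nsmul_eq_mul]))
      rw [norm_pow]
      exact (pow_le_pow_left₀ (norm_nonneg x) (hu.bd x hx) _).trans (pow_le_pow_right₀ hQ hk)
    have := norm_sub_le (∑ x ∈ s, x ^ (k + 1)) (∑ x ∈ t, x ^ (k + 1))
    have := b s hs sn
    have := b t ht tn
    linarith
  rw [if_neg hk, if_pos (by omega), zero_add]
  obtain ⟨a, ha⟩ : ∃ a, k + 1 = a + 2 * m := ⟨k + 1 - 2 * m, by omega⟩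
  have ea : k + 1 - 2 * m = a := by omega
  rw [ea] at hc ⊢
  obtain ⟨c, hc'⟩ : ∃ c, c = ∑ i ∈ range (2 * m + 1), yy s (a + i) ^ 2 := ⟨_, rfl⟩
  have c0 : 0 ≤ c := hc' ▸ sum_nonneg fun i _ => sq_nonneg _
  have b : ∀ u : Finset ℂ, ∑ i ∈ range (2 * m + 1), yy u (a + i) ^ 2 ≤ c →
      ∀ j, a ≤ j → j ≤ a + 2 * m → yy u j ≤ √c := fun u hu j h1 h2 => by
    refine Real.le_sqrt_of_sq_le (le_trans ?_ hu)
    have := single_le_sum (f := fun i => yy u (a + i) ^ 2) (fun i _ => sq_nonneg _)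
      (mem_range.2 (show j - a < 2 * m + 1 by omega))
    rwa [show a + (j - a) = j by omega] at this
  have h2 := step hs ht hQ (a := a) (by omega) (η := 2 * √c) (ha ▸ he) fun j h1 h2 => by
    have := b s hc'.ge j h1 h2
    have := b t (hc' ▸ hc) j h1 h2
    linarith
  rw [← ha, h1] at h2
  have k0 : (0 : ℝ) < k + 1 := by positivity
  have h3 := pow_le_pow_left₀ (by positivity) h2 2
  rw [mul_pow, mul_pow, mul_pow, Real.sq_sqrt c0, ← pow_mul, show 2 * m * 2 = 4 * m by ring] at h3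
  have h4 : |(o : ℝ)| ≤ |(o : ℝ)| ^ 2 := by
    rw [← Int.cast_abs]
    exact_mod_cast Int.le_self_sq |o|
  have h5 : c / (k + 1) ≤ ∑ i ∈ range (2 * m + 1), yy s (a + i) ^ 2 / ((a + i : ℕ) : ℝ) := by
    rw [hc', sum_div]
    refine sum_le_sum fun i hi => div_le_div_of_nonneg_left (sq_nonneg _) ?_ ?_
    · exact_mod_cast (by omega : 0 < a + i)
    · have := mem_range.1 hi
      exact_mod_cast (by omega : a + i ≤ k + 1)
  refine le_trans ?_ (mul_le_mul_of_nonneg_left h5 (by positivity))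
  rw [← mul_div_assoc, le_div_iff₀ k0]
  nlinarith [mul_le_mul_of_nonneg_left h4 (by positivity : (0 : ℝ) ≤ ((k : ℝ) + 1) ^ 2)]

theorem good_count (hQ : 1 ≤ Q) {n N : ℕ} (hN : 1 ≤ N) (hn : n ≤ N) (F : Finset (Finset ℂ))
    (hF : ∀ s ∈ F, Good m Q s ∧ s.card = n) {u : ℝ} (hu : 0 < u) :
    (F.card : ℝ) ≤ Real.exp (u * (4 * m * N * Q ^ (2 * m) + 4 * (1 + Q) ^ (4 * m) * ((2 * m + 1) *
      (2 * (N + N * Real.log (2 * N) + 2 * m * N * Real.log (2 * Q))))) + 40 / u) := by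
  classical
  let pre : ℕ → Finset ℂ → Finset (Finset ℂ) := fun k s =>
    F.filter fun t => ∀ j, 0 < j → j < k + 1 → s.val.esymm j = t.val.esymm j
  have hex : ∀ (k : ℕ) (A : Finset (Finset ℂ)), ∃ t, A.Nonempty → t ∈ A ∧ ∀ s ∈ A,
      ∑ i ∈ range (2 * m + 1), yy t (k + 1 - 2 * m + i) ^ 2 ≤
        ∑ i ∈ range (2 * m + 1), yy s (k + 1 - 2 * m + i) ^ 2 := fun k A => by
    by_cases h : A.Nonempty
    · obtain ⟨t, ht⟩ := exists_min_image A
        (fun t => ∑ i ∈ range (2 * m + 1), yy t (k + 1 - 2 * m + i) ^ 2) h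
      exact ⟨t, fun _ => ht⟩
    · exact ⟨∅, fun a => (h a).elim⟩
  choose ch hch using hex
  have hself : ∀ k, ∀ s ∈ F, s ∈ pre k s := fun k s hs => mem_filter.2 ⟨hs, fun _ _ _ => rfl⟩
  have hex2 : ∀ (s : Finset ℂ) (k : ℕ), ∃ o : ℤ, s ∈ F →
      s.val.esymm (k + 1) - (ch k (pre k s)).val.esymm (k + 1) = o := fun s k => by
    by_cases h : s ∈ F
    · obtain ⟨a, ha⟩ := (hF s h).1.int (k + 1)
      obtain ⟨b, hb⟩ := (hF _ (mem_filter.1 (hch k _ ⟨s, hself k s h⟩).1).1).1.int (k + 1)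
      exact ⟨a - b, fun _ => by rw [ha, hb, Int.cast_sub]⟩
    · exact ⟨0, fun a => (h a).elim⟩
  choose o ho using hex2
  have hinj : Set.InjOn (fun s (k : Fin n) => o s k) F := by
    intro s hs t ht h
    refine eq_of_esymm s t ((hF s hs).2.trans (hF t ht).2.symm) fun j => ?_
    induction j using Nat.strong_induction_on with
    | _ j ih =>
      intro j0 jn
      obtain ⟨k, rfl⟩ : ∃ k, j = k + 1 := ⟨j - 1, by omega⟩
      have e : pre k s = pre k t := filter_congr fun w _ => forall_congr' fun i =>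
        forall_congr' fun a => forall_congr' fun b => by rw [ih i b a (by omega)]
      have e2 : o s k = o t k := congrFun h ⟨k, by have := (hF s hs).2; omega⟩
      have a := ho s k hs
      rw [e, e2, ← ho t k ht] at a
      exact sub_left_injective a
  rw [← card_image_of_injOn hinj]
  refine MP_1e748d_nt.count_le n _ u hu _ fun w hw => ?_
  obtain ⟨s, hs, rfl⟩ := mem_image.1 hw
  have h1 : ∀ k ∈ range n, _ := fun k _ =>
    have a := hch k _ ⟨s, hself k s hs⟩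
    have b := mem_filter.1 a.1
    offset (hF s hs).1 (hF _ b.1).1 hQ (hF s hs).2 (hF _ b.1).2 b.2 (a.2 s (hself k s hs))
      (ho s k hs)
  rw [Fin.sum_univ_eq_sum_range (fun k => ((k : ℝ) + 1) * |(o s k : ℝ)|) n]
  refine (sum_le_sum h1).trans ?_
  rw [sum_add_distrib, ← mul_sum]
  have n1 : (n : ℝ) ≤ N := by exact_mod_cast hn
  refine add_le_add ?_ (mul_le_mul_of_nonneg_left ?_ (by positivity))
  · rw [← sum_filter, sum_const, nsmul_eq_mul]
    have a : (((range n).filter fun k => k < 2 * m).card : ℝ) ≤ (2 * m : ℕ) := by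
      refine Nat.cast_le.2 ((card_le_card fun k hk => ?_).trans_eq (card_range _))
      exact mem_range.2 (mem_filter.1 hk).2
    push_cast at a
    calc _ ≤ 2 * m * (2 * N * Q ^ (2 * m)) := by gcongr
      _ = _ := by ring
  · refine (window (fun j => yy s j ^ 2 / j) (fun j => by positivity) (2 * m) n).trans ?_
    push_cast
    refine mul_le_mul_of_nonneg_left (le_trans ?_ ((hF s hs).1.energy hQ hN
      ((hF s hs).2.trans_le hn))) (by positivity)
    exact sum_le_sum_of_subset_of_nonneg (range_subset_range.2 (by omega))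
      fun j _ _ => by positivity

end Pool.Agent.Lib.MP_162bbe_gt.Ct
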